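import Pool.Agent.H2.HER.Threshold

/-!
# HER QTwo

The inclusions among the fields `M_r^s`: dependence on `n` and on the field of constants.
-/

set_option autoImplicit false
set_option linter.style.haveILetI false

namespace Pool.Agent.H2.HER

open Polynomial IntermediateField

universe u v

/-- inclusions in two models -/
theorem M_le_iff {k K : Type*} [Field k] [Field K] [IsAlgClosed K] [Algebra k K] {n : ℕ}
    {x : Fin n → K} (hx : AlgebraicIndependent k x) (r s r' s' : ℕ) :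
    ALG.M k x r s ≤ ALG.M k x r' s' ↔
      ALG.M k (xn k n) r s ≤ ALG.M k (xn k n) r' s' := by
  obtain ⟨φ, hφ⟩ := exists_hom (basis_xn k n) hx
  have hφ' : φ ∘ xn k n = x := funext hφ
  rw [← hφ', ← map_M, ← map_M]
  constructor
  · intro h w hw
    obtain ⟨w', hw', hww⟩ := h ⟨w, hw, rfl⟩
    have h4 : w' = w := φ.toRingHom.injective hww
    rw [← h4]; exact hw'
  · rintro h _ ⟨w, hw, rfl⟩
    exact ⟨w, h hw, rfl⟩

/-- inclusions descend -/
theorem incl_descend {k k' K : Type*} [Field k] [IsAlgClosed k] [Field k'] [Field K]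
    [IsAlgClosed K] [Algebra k k'] [Algebra k' K] [Algebra k K] [IsScalarTower k k' K] {n m : ℕ}
    (x : Fin n → K) (hx : IsTranscendenceBasis k' x) (hmn : m ≤ n) {r s r' s' : ℕ}
    (h : ALG.M k' x r s ≤ ALG.M k' x r' s') :
    ALG.M k (x ∘ Fin.castLE hmn) r s ≤ ALG.M k (x ∘ Fin.castLE hmn) r' s' := by
  intro z hz
  obtain ⟨h1, h2⟩ := (heredity_gen (k' := k') x hx hmn r s z).2 hz
  exact (heredity_gen (k' := k') x hx hmn r' s' z).1 ⟨h h1, h2⟩

/-- smaller fields of constants and fewer variables -/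
theorem incl_of_le {k k' : Type*} [Field k] [IsAlgClosed k] [Field k'] [IsAlgClosed k']
    [Algebra k k'] {n m : ℕ} (hmn : m ≤ n) {r s r' s' : ℕ}
    (h : ALG.M k' (xn k' n) r s ≤ ALG.M k' (xn k' n) r' s') :
    ALG.M k (xn k m) r s ≤ ALG.M k (xn k m) r' s' := by
  have hx : IsTranscendenceBasis k' (xn k' n) := basis_xn k' n
  letI : Algebra k (Kn k' n) := ((algebraMap k' (Kn k' n)).comp (algebraMap k k')).toAlgebra
  haveI : @IsScalarTower k k' (Kn k' n) Algebra.toSMul Algebra.toSMul Algebra.toSMul :=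
    IsScalarTower.of_algebraMap_eq (fun _ => rfl)
  have hxk : AlgebraicIndependent k (xn k' n ∘ Fin.castLE hmn) :=
    (hx.1.restrictScalars (algebraMap k k').injective).comp _ (Fin.castLE_injective hmn)
  exact (M_le_iff hxk r s r' s').1 (incl_descend (xn k' n) hx hmn h)

/-- constants of infinite transcendence degree -/
theorem incl_of_inf {k : Type u} {k' : Type v} [Field k] [IsAlgClosed k] [Field k']
    [IsAlgClosed k'] (p : ℕ) [CharP k p] [CharP k' p] {B : ℕ → k}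
    (hB : AlgebraicIndependent (⊥ : Subfield k) B) {n m : ℕ} (hmn : m ≤ n) {r s r' s' : ℕ}
    (h : ALG.M k (xn k n) r s ≤ ALG.M k (xn k n) r' s') :
    ALG.M k' (xn k' m) r s ≤ ALG.M k' (xn k' m) r' s' := by
  obtain ⟨k₃, _, _, ⟨i⟩, ⟨i'⟩⟩ := exists_common_ext k k' p
  letI : Algebra k k₃ := i.toAlgebra
  letI : Algebra k' k₃ := i'.toAlgebra
  letI : Algebra (⊥ : Subfield k) k₃ := (i.comp (algebraMap (⊥ : Subfield k) k)).toAlgebra
  haveI : @IsScalarTower (⊥ : Subfield k) k k₃ Algebra.toSMul Algebra.toSMul Algebra.toSMul :=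
    IsScalarTower.of_algebraMap_eq (fun _ => rfl)
  letI : Algebra (⊥ : Subfield k) (Kn k₃ n) :=
    ((algebraMap k₃ (Kn k₃ n)).comp (algebraMap (⊥ : Subfield k) k₃)).toAlgebra
  haveI : @IsScalarTower (⊥ : Subfield k) k₃ (Kn k₃ n) Algebra.toSMul Algebra.toSMul
      Algebra.toSMul := IsScalarTower.of_algebraMap_eq (fun _ => rfl)
  obtain ⟨t, _, ht⟩ := exists_infinite_basis hB
  exact incl_of_le (k := k') (k' := k₃) hmn
    (incl_inf (F := (⊥ : Subfield k)) (k := k) (k' := k₃) (K := Kn k₃ n) _ ht (xn k₃ n)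
      (basis_xn k₃ n) h)

/-- comparison of the numbers of distinct fields -/
theorem encard_le {α β : Type*} (S : Set (ℕ × ℕ)) (T : Set (ℕ × ℕ)) (hTS : T ⊆ S)
    (f : ℕ × ℕ → α) (g : ℕ × ℕ → β) (h : ∀ a ∈ T, ∀ b ∈ S, f a = f b → b ∈ T → g a = g b)
    (h' : ∀ a ∈ T, ∀ b ∈ S, f a = f b → g a = g b) : (g '' T).encard ≤ (f '' S).encard := by
  classical
  rcases T.eq_empty_or_nonempty with rfl | ⟨t₀, ht₀⟩
  · simp
  let F : α → β := fun a => if h : ∃ q ∈ S, f q = a then g h.choose else g t₀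
  refine (Set.encard_le_encard ?_).trans (Set.encard_image_le F _)
  rintro _ ⟨q, hq, rfl⟩
  refine ⟨f q, ⟨q, hTS hq, rfl⟩, ?_⟩
  have h1 : ∃ q' ∈ S, f q' = f q := ⟨q, hTS hq, rfl⟩
  simp only [F]
  rw [dif_pos h1]
  exact (h' q hq _ h1.choose_spec.1 h1.choose_spec.2.symm).symm

theorem set_eq {α : Type*} (N : ℕ) (f : ℕ → ℕ → α) :
    {F | ∃ r s, 1 ≤ r ∧ r ≤ N ∧ 1 ≤ s ∧ F = f r s} =
      (fun q : ℕ × ℕ => f q.1 q.2) '' {q | 1 ≤ q.1 ∧ q.1 ≤ N ∧ 1 ≤ q.2} := by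
  ext F
  constructor
  · rintro ⟨r, s, h1, h2, h3, rfl⟩
    exact ⟨(r, s), ⟨h1, h2, h3⟩, rfl⟩
  · rintro ⟨⟨r, s⟩, ⟨h1, h2, h3⟩, rfl⟩
    exact ⟨r, s, h1, h2, h3, rfl⟩

/-- the answer to Q2: dependence on `n` and on the constants -/
theorem q2 (p : ℕ) {k : Type*} [Field k] [IsAlgClosed k] [CharP k p] {K : Type*} [Field K]
    [IsAlgClosed K] [Algebra k K] {k' : Type*} [Field k'] [IsAlgClosed k'] [CharP k' p]
    {K' : Type*} [Field K'] [IsAlgClosed K'] [Algebra k' K'] {n m : ℕ} (hmn : m ≤ n)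
    (x : Fin n → K) (hx : IsTranscendenceBasis k x) (x' : Fin m → K')
    (hx' : IsTranscendenceBasis k' x')
    (h : (∃ B : ℕ → k, AlgebraicIndependent (⊥ : Subfield k) B) ∨ Nonempty (k' →+* k)) :
    (∀ r s r' s', ALG.M k x r s ≤ ALG.M k x r' s' → ALG.M k' x' r s ≤ ALG.M k' x' r' s') ∧
    {F | ∃ r s, 1 ≤ r ∧ r ≤ m ∧ 1 ≤ s ∧ F = ALG.M k' x' r s}.encard ≤
      {F | ∃ r s, 1 ≤ r ∧ r ≤ n ∧ 1 ≤ s ∧ F = ALG.M k x r s}.encard := by
  have h1 : ∀ r s r' s', ALG.M k x r s ≤ ALG.M k x r' s' →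
      ALG.M k' x' r s ≤ ALG.M k' x' r' s' := by
    intro r s r' s' hle
    rw [M_le_iff hx'.1]
    rw [M_le_iff hx.1] at hle
    rcases h with ⟨B, hB⟩ | h
    · exact incl_of_inf p hB hmn hle
    · obtain ⟨i⟩ := h
      letI : Algebra k' k := i.toAlgebra
      exact incl_of_le (k := k') (k' := k) hmn hle
  refine ⟨h1, ?_⟩
  rw [set_eq m (fun r s => ALG.M k' x' r s), set_eq n (fun r s => ALG.M k x r s)]
  have h2 : ∀ a b : ℕ × ℕ, ALG.M k x a.1 a.2 = ALG.M k x b.1 b.2 →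
      ALG.M k' x' a.1 a.2 = ALG.M k' x' b.1 b.2 := fun a b hab =>
    le_antisymm (h1 _ _ _ _ hab.le) (h1 _ _ _ _ hab.ge)
  refine encard_le _ _ ?_ _ _ (fun a _ b _ hab _ => h2 a b hab) (fun a _ b _ hab => h2 a b hab)
  rintro q ⟨h3, h4, h5⟩
  exact ⟨h3, h4.trans hmn, h5⟩

end Pool.Agent.H2.HER
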