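import Pool.Agent.H2.HER.VR2
import Pool.Agent.H45.CH.VB

/-!
# HER VR3

The Gauss extension has all properties of `Red`.
-/

set_option autoImplicit false
set_option linter.style.haveILetI false

namespace Pool.Agent.H2.HER

open Polynomial IntermediateField Pool.Agent.H45.CH
open scoped IntermediateField.algebraAdjoinAdjoin

universe u v

section gauss

variable {E K : Type*} [Field E] [Field K] [Algebra E K] {n : ℕ} {A : ValuationSubring E}
  {x : Fin n → K} {O : ValuationSubring K}

/-- `A → O` -/
noncomputable def GaussP.incl (hO : GaussP A x O) : A →+* O :=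
  ((algebraMap E K).comp A.subtype).codRestrict O.toSubring (fun a => (hO.const a).1)

theorem GaussP.incl_coe (hO : GaussP A x O) (a : A) : ((hO.incl a : O) : K) = algebraMap E K a :=
  rfl

theorem isUnit_iff_val {z : O} : IsUnit z ↔ ¬ O.valuation (z : K) < 1 := by
  rw [O.valuation_eq_one_iff z]
  exact ⟨fun h => h ▸ lt_irrefl _, fun h =>
    le_antisymm ((O.valuation_le_one_iff _).2 z.2) (not_lt.1 h)⟩

theorem GaussP.isLocalHom_incl (hO : GaussP A x O) : IsLocalHom hO.incl := by
  refine ⟨fun a ha => ?_⟩
  rw [isUnit_iff_val, hO.incl_coe, (hO.const a).2] at ha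
  exact (IsLocalRing.residue_ne_zero_iff_isUnit a).1 ha

/-- the map of residue fields -/
noncomputable def GaussP.resMap (hO : GaussP A x O) :
    IsLocalRing.ResidueField A →+* IsLocalRing.ResidueField O :=
  haveI := hO.isLocalHom_incl
  IsLocalRing.ResidueField.map hO.incl

theorem GaussP.resMap_residue (hO : GaussP A x O) (a : A) :
    hO.resMap (IsLocalRing.residue A a) = IsLocalRing.residue O (hO.incl a) := by
  haveI := hO.isLocalHom_incl
  exact IsLocalRing.ResidueField.map_residue hO.incl a

/-- `A[X] → O` -/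
noncomputable def GaussP.ev (hO : GaussP A x O) : MvPolynomial (Fin n) A →+* O :=
  (evA A x).codRestrict O.toSubring (fun P => (hO P).1)

theorem GaussP.ev_coe (hO : GaussP A x O) (P : MvPolynomial (Fin n) A) :
    ((hO.ev P : O) : K) = evA A x P := rfl

theorem GaussP.x_mem (hO : GaussP A x O) (i : Fin n) : x i ∈ O := by
  have := (hO (MvPolynomial.X i)).1
  rwa [evA_X] at this

theorem GaussP.red_ev (hO : GaussP A x O) (P : MvPolynomial (Fin n) A) :
    IsLocalRing.residue O (hO.ev P) =
      @MvPolynomial.aeval (IsLocalRing.ResidueField A) (IsLocalRing.ResidueField O) (Fin n) _ _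
        hO.resMap.toAlgebra (fun i => IsLocalRing.residue O ⟨x i, hO.x_mem i⟩)
        (MvPolynomial.map (IsLocalRing.residue A) P) := by
  letI := hO.resMap.toAlgebra
  have h : (IsLocalRing.residue O).comp hO.ev =
      (MvPolynomial.aeval (R := IsLocalRing.ResidueField A)
        (fun i => IsLocalRing.residue O ⟨x i, hO.x_mem i⟩) :
          MvPolynomial (Fin n) (IsLocalRing.ResidueField A) →+* IsLocalRing.ResidueField O).comp
        (MvPolynomial.map (IsLocalRing.residue A)) := by
    apply MvPolynomial.ringHom_ext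
    · intro a
      rw [RingHom.comp_apply, RingHom.comp_apply, MvPolynomial.map_C]
      have h1 : hO.ev (MvPolynomial.C a) = hO.incl a :=
        Subtype.ext (by rw [hO.ev_coe, evA_C, hO.incl_coe])
      rw [h1, ← hO.resMap_residue]
      exact (MvPolynomial.aeval_C (R := IsLocalRing.ResidueField A) _ _).symm
    · intro i
      rw [RingHom.comp_apply, RingHom.comp_apply, MvPolynomial.map_X]
      have h1 : hO.ev (MvPolynomial.X i) = ⟨x i, hO.x_mem i⟩ :=
        Subtype.ext (by rw [hO.ev_coe, evA_X])
      rw [h1]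
      exact (MvPolynomial.aeval_X (R := IsLocalRing.ResidueField A)
        (fun i => IsLocalRing.residue O ⟨x i, hO.x_mem i⟩) i).symm
  exact congrArg (fun f => f P) h

/-- the residues of the elements of `E(x)` -/
theorem GaussP.res_frac (hO : GaussP A x O) (b : O) (hb : (b : K) ∈ adjoin E (Set.range x)) :
    letI := hO.resMap.toAlgebra
    IsLocalRing.residue O b ∈ adjoin (IsLocalRing.ResidueField A)
      (Set.range (fun i => IsLocalRing.residue O ⟨x i, hO.x_mem i⟩)) := by
  letI := hO.resMap.toAlgebra
  by_cases hb0 : (b : K) = 0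
  · have : b = 0 := Subtype.ext hb0
    rw [this, map_zero]
    exact zero_mem _
  obtain ⟨c, hc, P, Q, hP, hQ, hQ0, he⟩ := hO.frac hb hb0
  have hcO : algebraMap E K c ∈ O := by
    have hP0 : evA A x P ≠ 0 := by
      intro h0
      have := hO.val_one hP
      rw [h0, map_zero] at this
      exact zero_ne_one this
    have h1 : algebraMap E K c = b * evA A x Q / evA A x P := by
      rw [he]; field_simp
    rw [← O.valuation_le_one_iff, h1, map_div₀, map_mul, hO.val_one hP, hO.val_one hQ, mul_one,
      div_one]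
    exact (O.valuation_le_one_iff _).2 b.2
  have hcA := hO.mem_of_mem hcO
  have h1 : b * hO.ev Q = hO.incl ⟨c, hcA⟩ * hO.ev P := Subtype.ext he
  have h2 := congrArg (IsLocalRing.residue O) h1
  rw [map_mul, map_mul, ← hO.resMap_residue] at h2
  have h3 : IsLocalRing.residue O (hO.ev Q) ≠ 0 := by
    rw [IsLocalRing.residue_ne_zero_iff_isUnit, isUnit_iff_val, hO.ev_coe, (hO Q).2]
    exact hQ
  have h4 : IsLocalRing.residue O b = hO.resMap (IsLocalRing.residue A ⟨c, hcA⟩) *
      IsLocalRing.residue O (hO.ev P) / IsLocalRing.residue O (hO.ev Q) := by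
    rw [eq_div_iff h3, h2]
  have hmem : ∀ R : MvPolynomial (Fin n) A, IsLocalRing.residue O (hO.ev R) ∈
      adjoin (IsLocalRing.ResidueField A)
        (Set.range (fun i => IsLocalRing.residue O ⟨x i, hO.x_mem i⟩)) := by
    intro R
    rw [hO.red_ev R]
    refine IntermediateField.algebra_adjoin_le_adjoin _ _ ?_
    rw [Algebra.adjoin_range_eq_range_aeval]
    exact ⟨_, rfl⟩
  rw [h4]
  exact div_mem (mul_mem (IntermediateField.algebraMap_mem _ _) (hmem P)) (hmem Q)

theorem GaussP.tb (hO : GaussP A x O) (hx : IsTranscendenceBasis E x) :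
    letI := hO.resMap.toAlgebra
    IsTranscendenceBasis (IsLocalRing.ResidueField A)
      (fun i => IsLocalRing.residue O ⟨x i, hO.x_mem i⟩) := by
  letI := hO.resMap.toAlgebra
  set y : Fin n → IsLocalRing.ResidueField O :=
    fun i => IsLocalRing.residue O ⟨x i, hO.x_mem i⟩ with hy
  have hind : AlgebraicIndependent (IsLocalRing.ResidueField A) y := by
    rw [algebraicIndependent_iff]
    intro Q hQ
    obtain ⟨P, rfl⟩ := MvPolynomial.map_surjective (σ := Fin n) (IsLocalRing.residue A)
      IsLocalRing.residue_surjective Q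
    by_contra hne
    have h1 : IsLocalRing.residue O (hO.ev P) = 0 := (hO.red_ev P).trans hQ
    have h2 : IsLocalRing.residue O (hO.ev P) ≠ 0 := by
      rw [IsLocalRing.residue_ne_zero_iff_isUnit, isUnit_iff_val, hO.ev_coe, (hO P).2]
      exact hne
    exact h2 h1
  refine (hind.isTranscendenceBasis_iff_isAlgebraic).2 ⟨fun w => ?_⟩
  obtain ⟨z, rfl⟩ := IsLocalRing.residue_surjective w
  have halg : Algebra.IsAlgebraic (adjoin E (Set.range x)) K := hx.isAlgebraic_field
  obtain ⟨f, hf, i, hi⟩ := exists_prim O (adjoin E (Set.range x)).toSubfield (z : K)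
    (halg.isAlgebraic (z : K))
  let j : (O.toSubring ⊓ (adjoin E (Set.range x)).toSubfield.toSubring : Subring K) →+* O :=
    (O.toSubring ⊓ (adjoin E (Set.range x)).toSubfield.toSubring : Subring K).subtype.codRestrict
      O.toSubring (fun s => s.2.1)
  let g : (IsLocalRing.ResidueField O)[X] := f.map ((IsLocalRing.residue O).comp j)
  have hg0 : g ≠ 0 := by
    intro h0
    have h1 := congrArg (fun q => q.coeff i) h0
    simp only [g, coeff_map, hi, map_one, coeff_zero] at h1
    exact one_ne_zero h1
  have hgz : g.eval (IsLocalRing.residue O z) = 0 := by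
    have h1 : eval₂ j z f = 0 := by
      apply Subtype.ext
      change O.subtype (eval₂ j z f) = 0
      rw [hom_eval₂]
      exact hf
    rw [eval_map, ← hom_eval₂, h1, map_zero]
  have hlift : g ∈ Polynomial.lifts (algebraMap (adjoin (IsLocalRing.ResidueField A)
      (Set.range y)) (IsLocalRing.ResidueField O)) := by
    rw [Polynomial.lifts_iff_coeff_lifts]
    intro m
    rw [coeff_map]
    exact ⟨⟨_, hO.res_frac (j (f.coeff m)) (f.coeff m).2.2⟩, rfl⟩
  obtain ⟨g', hg'⟩ := (Polynomial.mem_lifts _).1 hlift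
  have h2 : IsAlgebraic (adjoin (IsLocalRing.ResidueField A) (Set.range y))
      (IsLocalRing.residue O z) := by
    refine ⟨g', ?_, ?_⟩
    · rintro rfl
      exact hg0 (by rw [← hg', Polynomial.map_zero])
    · rw [← hgz, ← hg', eval_map]
      rfl
  haveI : IsScalarTower (Algebra.adjoin (IsLocalRing.ResidueField A) (Set.range y))
      (adjoin (IsLocalRing.ResidueField A) (Set.range y)) (IsLocalRing.ResidueField O) :=
    IsScalarTower.of_algebraMap_eq (fun _ => rfl)
  rw [← IsFractionRing.isAlgebraic_iff (Algebra.adjoin (IsLocalRing.ResidueField A)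
    (Set.range y))] at h2
  exact h2

end gauss

/-- the Gauss extension of a valuation ring -/
theorem exists_gauss {E K : Type*} [Field E] [IsAlgClosed E] [Field K] [IsAlgClosed K]
    [Algebra E K] (A : ValuationSubring E) {n : ℕ} (x : Fin n → K)
    (hx : IsTranscendenceBasis E x) :
    ∃ (O : ValuationSubring K) (_ : Algebra (IsLocalRing.ResidueField A)
      (IsLocalRing.ResidueField O)) (y : Fin n → O), (∀ i, (y i : K) = x i) ∧
      (∀ a : A, ∃ b : O, (b : K) = algebraMap E K a ∧ IsLocalRing.residue O b =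
        algebraMap (IsLocalRing.ResidueField A) (IsLocalRing.ResidueField O)
          (IsLocalRing.residue A a)) ∧
      Red (IsLocalRing.ResidueField A) E O (IsLocalRing.residue O) y := by
  obtain ⟨O, hO'⟩ := exists_gauss_ring A hx.1
  have hO : GaussP A x O := hO'
  letI := hO.resMap.toAlgebra
  refine ⟨O, hO.resMap.toAlgebra, fun i => ⟨x i, hO.x_mem i⟩, fun i => rfl,
    fun a => ⟨hO.incl a, rfl, (hO.resMap_residue a).symm⟩, ?_⟩
  refine ⟨IsLocalRing.residue_surjective, fun z => IsLocalRing.residue_ne_zero_iff_isUnit z,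
    fun z hz => ?_, fun c z hz => ?_, fun a => ?_, hx, hO.tb hx⟩
  · obtain ⟨c, hc, hv⟩ := hO.scale hx hz
    have hmem : z / algebraMap E K c ∈ O := (O.valuation_le_one_iff _).1 hv.le
    refine ⟨c, hc, ⟨_, hmem⟩, (O.valuation_eq_one_iff ⟨_, hmem⟩).2 hv, ?_⟩
    change z = z / algebraMap E K c * algebraMap E K c
    rw [div_mul_cancel₀ _ ((_root_.map_ne_zero _).2 hc)]
  · have hcO : algebraMap E K c ∈ O := hz ▸ z.2
    refine ⟨IsLocalRing.residue A ⟨c, hO.mem_of_mem hcO⟩, ?_⟩
    have h1 : z = hO.incl ⟨c, hO.mem_of_mem hcO⟩ := Subtype.ext hz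
    rw [h1]
    exact (hO.resMap_residue _).symm
  · obtain ⟨a', rfl⟩ := IsLocalRing.residue_surjective a
    exact ⟨a', hO.incl a', rfl, (hO.resMap_residue a').symm⟩

end Pool.Agent.H2.HER
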