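import Pool.Agent.H2.HER.QTwo

/-!
# HER AllN

`M_r(n; k) = K_n(k)` for all `n` depends only on the characteristic of `k`.
-/

set_option autoImplicit false
set_option linter.style.haveILetI false

namespace Pool.Agent.H2.HER

open Polynomial IntermediateField

universe u v

/-- if `M_r(N; k) = K_N(k)` for all `N`, this holds over larger fields of constants -/
theorem top_of_all {k k' K : Type*} [Field k] [Field k'] [Field K] [IsAlgClosed K] [Algebra k k']
    [Algebra k' K] [Algebra k K] [IsScalarTower k k' K] {n r : ℕ} (hr : 1 ≤ r) (x : Fin n → K)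
    (hx : IsTranscendenceBasis k' x) (hall : ∀ N, MU k (xn k N) r = ⊤) : MU k' x r = ⊤ := by
  classical
  rw [eq_top_iff]
  intro z _
  obtain ⟨J, C, hC⟩ := exists_isTranscendenceBasis' k k'
  have hZ : IsTranscendenceBasis k (Sum.elim x (algebraMap k' K ∘ C)) := hC.sumElim_comp hx
  obtain ⟨T, hT⟩ := exists_finite_sub _ z (hZ.isAlgebraic.isAlgebraic z)
  let e : Fin T.card ≃ T := T.equivFin.symm
  let y : Fin T.card → K := fun i => Sum.elim x (algebraMap k' K ∘ C) (e i)
  have hy : AlgebraicIndependent k y :=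
    hZ.1.comp (fun i => ((e i : T) : Fin n ⊕ J)) (Subtype.val_injective.comp e.injective)
  have hzy : z ∈ ALG.bracket (k := k) y := by
    rw [ALG.bracket_eq]
    refine mem_ac_of_adjoin (F := k) (E := k) _ _ ?_ z hT
    rintro _ ⟨i, hi, rfl⟩
    refine subset_adjoin k _ ⟨e.symm ⟨i, hi⟩, ?_⟩
    simp only [y, Equiv.apply_symm_apply]
  have h1 := (bracket_le_MU_iff hy r).2 (hall _) hzy
  obtain ⟨s, hs⟩ := (mem_MU hr).1 h1
  refine M_le_MU x r (s + 1) (M_mono_const (k := k) (k' := k') (X := x) (x := y) (fun j => ?_) r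
    (s + 1) hs)
  change Sum.elim x (algebraMap k' K ∘ C) (e j) ∈ _
  rcases ((e j : T) : Fin n ⊕ J) with i | i
  · exact subset_adjoin k' _ ⟨i, rfl⟩
  · exact IntermediateField.algebraMap_mem (adjoin k' (Set.range x)) _

/-- `n = 0` -/
theorem top_zero {k K : Type*} [Field k] [IsAlgClosed k] [Field K] [Algebra k K] {x : Fin 0 → K}
    (hx : IsTranscendenceBasis k x) (A : IntermediateField k K) : A = ⊤ := by
  haveI h1 : Algebra.IsAlgebraic k K := hx.isEmpty_iff_isAlgebraic.1 inferInstance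
  rw [eq_top_iff]
  intro z _
  obtain ⟨a, rfl⟩ := (IsAlgClosed.algebraMap_bijective_of_isIntegral (k := k) (K := K)).2 z
  exact A.algebraMap_mem a

/-- `M_r(n; k) = K_n(k)` for all `n` is equivalent to `c ≤ r` -/
theorem all_iff {p : ℕ} {c : ℕ∞} {d : ℕ → ℕ}
    (hc : ∀ (k : Type u) [Field k] [IsAlgClosed k] [CharP k p] (r : ℕ), 1 ≤ r →
      (c ≤ r → MU k (xn k (r + 1)) r = ⊤) ∧
      ∀ n, r < n → (∃ b : Fin (d n) → k, AlgebraicIndependent (⊥ : Subfield k) b) →
        MU k (xn k (r + 1)) r = ⊤ → c ≤ r)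
    (k : Type u) [Field k] [IsAlgClosed k] [CharP k p] (r : ℕ) (hr : 1 ≤ r) :
    (∀ n, MU k (xn k n) r = ⊤) ↔ c ≤ r := by
  constructor
  · intro h
    obtain ⟨k₁, _, _, _, B, hB⟩ := exists_big k p
    obtain ⟨k₃, _, _, ⟨f⟩, ⟨g⟩⟩ := exists_common_ext k k₁ p
    letI := f.toAlgebra
    letI := g.toAlgebra
    letI : Algebra k (Kn k₃ (r + 1)) := ((algebraMap k₃ (Kn k₃ (r + 1))).comp f).toAlgebra
    haveI : @IsScalarTower k k₃ (Kn k₃ (r + 1)) Algebra.toSMul Algebra.toSMul Algebra.toSMul :=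
      IsScalarTower.of_algebraMap_eq (fun _ => rfl)
    have h1 : MU k₃ (xn k₃ (r + 1)) r = ⊤ :=
      top_of_all (k := k) (k' := k₃) hr _ (basis_xn k₃ (r + 1)) h
    have h2 : MU k₁ (xn k₁ (r + 1)) r = ⊤ := MU_top_of_le (k := k₁) (k' := k₃) hr h1
    exact (hc k₁ r hr).2 (r + 1) (Nat.lt_succ_self r) ⟨B ∘ Fin.val, hB.comp _ Fin.val_injective⟩ h2
  · intro h n
    rcases Nat.eq_zero_or_pos n with rfl | hn
    · exact top_zero (basis_xn k 0) _
    rcases Nat.lt_or_ge r n with hrn | hrn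
    · rw [← MU_self_top (basis_xn k n), MU_eq_iff_steps (xn k n) hr hrn.le]
      intro j hj hj'
      refine (MU_eq_succ_iff (xn k n) (basis_xn k n) (by omega) (by omega) _
        (basis_xn k (j + 1))).2 ?_
      exact (hc k j (by omega)).1 (h.trans (by exact_mod_cast hj))
    · rw [eq_top_iff, ← MU_self_top (basis_xn k n)]
      exact MU_mono (xn k n) hn hrn

end Pool.Agent.H2.HER
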