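import Pool.Agent.H2.HER.Inf

/-!
# HER Final

The number of distinct fields and the field of constants.
-/

set_option autoImplicit false
set_option linter.style.haveILetI false

namespace Pool.Agent.H2.HER

open Polynomial IntermediateField

universe u v

open TensorProduct in
/-- extensions of a field have a common algebraically closed extension -/
theorem exists_common_ext' (F : Type*) (k₁ : Type u) (k₂ : Type v) [Field F] [Field k₁] [Field k₂]
    [Algebra F k₁] [Algebra F k₂] :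
    ∃ (k₃ : Type (max u v)) (_ : Field k₃) (_ : IsAlgClosed k₃),
      Nonempty (k₁ →+* k₃) ∧ Nonempty (k₂ →+* k₃) := by
  haveI : Nontrivial (k₁ ⊗[F] k₂) :=
    Algebra.TensorProduct.nontrivial_of_algebraMap_injective_of_isDomain F k₁ k₂
      (algebraMap F k₁).injective (algebraMap F k₂).injective
  obtain ⟨m, hm⟩ := Ideal.exists_maximal (k₁ ⊗[F] k₂)
  letI : Field (k₁ ⊗[F] k₂ ⧸ m) := Ideal.Quotient.field m
  refine ⟨AlgebraicClosure (k₁ ⊗[F] k₂ ⧸ m), inferInstance, inferInstance, ⟨?_⟩, ⟨?_⟩⟩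
  · exact (algebraMap (k₁ ⊗[F] k₂ ⧸ m) (AlgebraicClosure (k₁ ⊗[F] k₂ ⧸ m))).comp
      ((Ideal.Quotient.mk m).comp Algebra.TensorProduct.includeLeftRingHom)
  · exact (algebraMap (k₁ ⊗[F] k₂ ⧸ m) (AlgebraicClosure (k₁ ⊗[F] k₂ ⧸ m))).comp
      ((Ideal.Quotient.mk m).comp
        (Algebra.TensorProduct.includeRight : k₂ →ₐ[F] k₁ ⊗[F] k₂).toRingHom)

/-- fields of the same characteristic have a common algebraically closed extension -/
theorem exists_common_ext (k₁ : Type u) (k₂ : Type v) [Field k₁] [Field k₂] (p : ℕ) [CharP k₁ p]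
    [CharP k₂ p] :
    ∃ (k₃ : Type (max u v)) (_ : Field k₃) (_ : IsAlgClosed k₃),
      Nonempty (k₁ →+* k₃) ∧ Nonempty (k₂ →+* k₃) := by
  rcases CharP.char_is_prime_or_zero k₁ p with hp | rfl
  · haveI := Fact.mk hp
    letI := ZMod.algebra k₁ p
    letI := ZMod.algebra k₂ p
    exact exists_common_ext' (ZMod p) k₁ k₂
  · haveI : CharZero k₁ := CharP.charP_to_charZero k₁
    haveI : CharZero k₂ := CharP.charP_to_charZero k₂
    exact exists_common_ext' ℚ k₁ k₂

/-- an infinite independent family extends to an infinite transcendence basis -/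
theorem exists_infinite_basis {F k : Type*} [Field F] [Field k] [Algebra F k] {B : ℕ → k}
    (hB : AlgebraicIndependent F B) :
    ∃ t : Set k, Infinite t ∧ IsTranscendenceBasis F ((↑) : t → k) := by
  obtain ⟨t, ht, hbt⟩ := exists_isTranscendenceBasis_superset (s := Set.range B) hB.to_subtype_range
  refine ⟨t, ?_, hbt⟩
  exact ((Set.infinite_range_of_injective hB.injective).mono ht).to_subtype

/-- constants of infinite transcendence degree -/
theorem MU_top_of_inf {k : Type u} {k' : Type v} [Field k] [IsAlgClosed k] [Field k']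
    [IsAlgClosed k'] (p : ℕ) [CharP k p] [CharP k' p] {B : ℕ → k}
    (hB : AlgebraicIndependent (⊥ : Subfield k) B) {n r : ℕ} (hr : 1 ≤ r)
    (htop : MU k (xn k n) r = ⊤) : MU k' (xn k' n) r = ⊤ := by
  obtain ⟨k₃, _, _, ⟨i⟩, ⟨i'⟩⟩ := exists_common_ext k k' p
  letI : Algebra k k₃ := i.toAlgebra
  letI : Algebra k' k₃ := i'.toAlgebra
  letI : Algebra (⊥ : Subfield k) k₃ := (i.comp (algebraMap (⊥ : Subfield k) k)).toAlgebra
  haveI : @IsScalarTower (⊥ : Subfield k) k k₃ Algebra.toSMul Algebra.toSMul Algebra.toSMul :=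
    IsScalarTower.of_algebraMap_eq (fun _ => rfl)
  letI : Algebra (⊥ : Subfield k) (Kn k₃ n) :=
    ((algebraMap k₃ (Kn k₃ n)).comp (algebraMap (⊥ : Subfield k) k₃)).toAlgebra
  haveI : @IsScalarTower (⊥ : Subfield k) k₃ (Kn k₃ n) Algebra.toSMul Algebra.toSMul
      Algebra.toSMul := IsScalarTower.of_algebraMap_eq (fun _ => rfl)
  obtain ⟨t, _, ht⟩ := exists_infinite_basis hB
  have h1 : MU k₃ (xn k₃ n) r = ⊤ :=
    up_inf (F := (⊥ : Subfield k)) (k := k) (k' := k₃) (K := Kn k₃ n) _ ht (xn k₃ n)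
      (basis_xn k₃ n) hr htop
  have hx : IsTranscendenceBasis k₃ (xn k₃ n) := basis_xn k₃ n
  letI : Algebra k' (Kn k₃ n) := ((algebraMap k₃ (Kn k₃ n)).comp (algebraMap k' k₃)).toAlgebra
  haveI : @IsScalarTower k' k₃ (Kn k₃ n) Algebra.toSMul Algebra.toSMul Algebra.toSMul :=
    IsScalarTower.of_algebraMap_eq (fun _ => rfl)
  have hxk : AlgebraicIndependent k' (xn k₃ n) :=
    hx.1.restrictScalars (algebraMap k' k₃).injective
  refine (bracket_le_MU_iff hxk r).1 (fun w hw => ?_)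
  have h2 : w ∈ MU k₃ (xn k₃ n) r := by rw [h1]; exact mem_top
  obtain ⟨s, hs⟩ := (mem_MU hr).1 h2
  exact M_le_MU _ r (s + 1) ((heredity_gen (k := k') (k' := k₃) (xn k₃ n) hx le_rfl r (s + 1) w).1
    ⟨hs, hw⟩)

/-- `M_r(n) = K_n` descends to smaller fields of constants -/
theorem MU_top_of_le {k k' : Type*} [Field k] [IsAlgClosed k] [Field k'] [IsAlgClosed k']
    [Algebra k k'] {n r : ℕ} (hr : 1 ≤ r) (htop : MU k' (xn k' n) r = ⊤) :
    MU k (xn k n) r = ⊤ := by
  have hx : IsTranscendenceBasis k' (xn k' n) := basis_xn k' n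
  letI : Algebra k (Kn k' n) := ((algebraMap k' (Kn k' n)).comp (algebraMap k k')).toAlgebra
  haveI : @IsScalarTower k k' (Kn k' n) Algebra.toSMul Algebra.toSMul Algebra.toSMul :=
    IsScalarTower.of_algebraMap_eq (fun _ => rfl)
  have hxk : AlgebraicIndependent k (xn k' n) :=
    hx.1.restrictScalars (algebraMap k k').injective
  refine (bracket_le_MU_iff hxk r).1 (fun w hw => ?_)
  have h2 : w ∈ MU k' (xn k' n) r := by rw [htop]; exact mem_top
  obtain ⟨s, hs⟩ := (mem_MU hr).1 h2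
  exact M_le_MU _ r (s + 1) ((heredity_gen (k := k) (k' := k') (xn k' n) hx le_rfl r (s + 1) w).1
    ⟨hs, hw⟩)

/-- an element outside `M_r(n)` defined over a smaller field of constants -/
theorem ne_top_of_mem {k₀ k K : Type*} [Field k₀] [Field k] [Field K] [IsAlgClosed K]
    [Algebra k₀ k] [Algebra k K] [Algebra k₀ K] [IsScalarTower k₀ k K] {m r : ℕ} (hr : 1 ≤ r)
    (x : Fin m → K) (hx : AlgebraicIndependent k x) (z : K)
    (hz : z ∈ ALG.bracket (k := k₀) x) (hzM : z ∉ MU k x r) : MU k₀ (xn k₀ m) r ≠ ⊤ := by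
  intro h
  have h1 := (bracket_le_MU_iff (hx.restrictScalars (algebraMap k₀ k).injective) r).2 h hz
  obtain ⟨s, hs⟩ := (mem_MU hr).1 h1
  exact hzM (M_le_MU x r (s + 1) (M_mono_const (k := k₀) (k' := k) (X := x) (x := x)
    (fun j => subset_adjoin k _ ⟨j, rfl⟩) r (s + 1) hs))

/-- finitely many constants suffice -/
theorem exists_finite_constants (F : Type*) {k : Type*} [Field F] [Field k] [IsAlgClosed k]
    [Algebra F k] (n : ℕ) :
    ∃ (N : ℕ) (c : Fin N → k), AlgebraicIndependent F c ∧ ∀ r, 1 ≤ r → r < n →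
      (MU (ALG.bracket (k := F) c) (xn (ALG.bracket (k := F) c) (r + 1)) r = ⊤ ↔
        MU k (xn k (r + 1)) r = ⊤) := by
  classical
  obtain ⟨I, B, hB⟩ := exists_isTranscendenceBasis' F k
  letI aF : ∀ m, Algebra F (Kn k m) := fun m =>
    ((algebraMap k (Kn k m)).comp (algebraMap F k)).toAlgebra
  haveI hF : ∀ m, @IsScalarTower F k (Kn k m) Algebra.toSMul Algebra.toSMul Algebra.toSMul :=
    fun m => IsScalarTower.of_algebraMap_eq (fun _ => rfl)
  have key : ∀ r, ∃ T : Finset I, MU k (xn k (r + 1)) r ≠ ⊤ →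
      ∃ z : Kn k (r + 1), z ∉ MU k (xn k (r + 1)) r ∧
        ∀ (A : IntermediateField F k), (∀ i ∈ T, B i ∈ A) → z ∈ ALG.ac (adjoin A
          (Set.range (xn k (r + 1)))) := by
    intro r
    by_cases h : MU k (xn k (r + 1)) r = ⊤
    · exact ⟨∅, fun h' => absurd h h'⟩
    · obtain ⟨z, hz⟩ : ∃ z, z ∉ MU k (xn k (r + 1)) r := by
        by_contra hcon
        push Not at hcon
        exact h (eq_top_iff.2 (fun z _ => hcon z))
      have hZ : IsTranscendenceBasis F (Sum.elim (xn k (r + 1))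
        (algebraMap k (Kn k (r + 1)) ∘ B)) := hB.sumElim_comp (basis_xn k (r + 1))
      obtain ⟨T, hT⟩ := exists_finite_sub _ z (hZ.isAlgebraic.isAlgebraic z)
      refine ⟨T.preimage Sum.inr Sum.inr_injective.injOn, fun _ => ⟨z, hz, fun A hA => ?_⟩⟩
      refine mem_ac_of_adjoin (F := F) (E := A) _ _ ?_ z hT
      rintro _ ⟨i | i, hi, rfl⟩
      · exact subset_adjoin A _ ⟨i, rfl⟩
      · have h1 : B i ∈ A := hA i (Finset.mem_preimage.2 hi)
        exact IntermediateField.algebraMap_mem (adjoin A (Set.range (xn k (r + 1)))) ⟨B i, h1⟩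
  choose T hT using key
  let I₀ : Finset I := (Finset.range n).biUnion T
  let eI : Fin I₀.card ≃ I₀ := I₀.equivFin.symm
  let c : Fin I₀.card → k := fun i => B (eI i)
  refine ⟨I₀.card, c, hB.1.comp (fun i => (eI i : I))
    (Subtype.val_injective.comp eI.injective), fun r hr hrn => ?_⟩
  haveI : IsAlgClosed (ALG.bracket (k := F) c) := isAlgClosed_bracket _
  constructor
  · intro h
    by_contra hcon
    obtain ⟨z, hz, hzA⟩ := hT r hcon
    have h1 : z ∈ ALG.bracket (k := ALG.bracket (k := F) c) (xn k (r + 1)) := by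
      rw [ALG.bracket_eq]
      refine hzA _ (fun i hi => ?_)
      have hi' : i ∈ I₀ := Finset.mem_biUnion.2 ⟨r, Finset.mem_range.2 hrn, hi⟩
      have h2 : c (eI.symm ⟨i, hi'⟩) = B i := by
        simp only [c, Equiv.apply_symm_apply]
      rw [← h2]
      exact ALG.mem_bracket _ _
    exact ne_top_of_mem (k₀ := ALG.bracket (k := F) c) (k := k) hr (xn k (r + 1))
      (basis_xn k (r + 1)).1 z h1 hz h
  · exact MU_top_of_le hr

/-- the number of distinct fields among `M_1, …, M_n` -/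
noncomputable def num (k : Type*) [Field k] (n : ℕ) : ℕ :=
  {F : IntermediateField k (Kn k n) | ∃ r, 1 ≤ r ∧ r ≤ n ∧ F = MU k (xn k n) r}.ncard

theorem num_eq {k : Type*} [Field k] [IsAlgClosed k] {n : ℕ} (hn : 1 ≤ n) :
    num k n = 1 + {r | 1 ≤ r ∧ r < n ∧ MU k (xn k (r + 1)) r ≠ ⊤}.ncard :=
  card_MU hn (xn k n) (basis_xn k n)

theorem num_le {k k' : Type*} [Field k] [IsAlgClosed k] [Field k'] [IsAlgClosed k'] {n : ℕ}
    (hn : 1 ≤ n) (h : ∀ r, 1 ≤ r → r < n → MU k' (xn k' (r + 1)) r = ⊤ →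
      MU k (xn k (r + 1)) r = ⊤) : num k n ≤ num k' n := by
  rw [num_eq hn, num_eq hn]
  refine Nat.add_le_add_left (Set.ncard_le_ncard ?_ ?_) 1
  · rintro r ⟨h1, h2, h3⟩
    exact ⟨h1, h2, fun h' => h3 (h r h1 h2 h')⟩
  · refine (Finset.range n).finite_toSet.subset ?_
    rintro r ⟨-, h2, -⟩
    exact Finset.mem_coe.2 (Finset.mem_range.2 h2)

end Pool.Agent.H2.HER
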