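import Pool.Agent.H45.ALG.Main

/-!
# HER Germ

Ultrapowers of algebraically closed fields; embeddings with prescribed values on a transcendence basis.
-/

set_option autoImplicit false
set_option linter.style.haveILetI false

namespace Pool.Agent.H2.HER

open Polynomial IntermediateField Filter

/-- the power of an algebraically closed field modulo an ultrafilter is algebraically closed -/
theorem isAlgClosed_germ {I V : Type*} [Field V] [IsAlgClosed V] (U : Ultrafilter I) :
    IsAlgClosed (Germ (U : Filter I) V) := by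
  refine IsAlgClosed.of_exists_root _ (fun p hp hirr => ?_)
  set d := p.natDegree with hd
  have hd0 : 0 < d := hirr.natDegree_pos
  have hsurj : ∀ j, ∃ a : I → V, (a : Germ (U : Filter I) V) = p.coeff j := fun j =>
    ⟨Quotient.out (p.coeff j), Quotient.out_eq _⟩
  choose a ha using hsurj
  have hroot : ∀ i : I, ∃ r : V, r ^ d + ∑ j ∈ Finset.range d, a j i * r ^ j = 0 := by
    intro i
    have hlt : (∑ j ∈ Finset.range d, C (a j i) * X ^ j : V[X]).degree < d := by
      refine (degree_sum_le _ _).trans_lt ((Finset.sup_lt_iff (WithBot.bot_lt_coe d)).2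
        (fun j hj => ?_))
      exact (degree_C_mul_X_pow_le _ _).trans_lt (Nat.cast_lt.2 (Finset.mem_range.1 hj))
    have hdeg : (X ^ d + ∑ j ∈ Finset.range d, C (a j i) * X ^ j : V[X]).degree = d := by
      rw [degree_add_eq_left_of_degree_lt (by rw [degree_X_pow]; exact hlt), degree_X_pow]
    obtain ⟨r, hr⟩ := IsAlgClosed.exists_root (X ^ d + ∑ j ∈ Finset.range d, C (a j i) * X ^ j :
      V[X]) (by rw [hdeg]; exact_mod_cast hd0.ne')
    refine ⟨r, ?_⟩
    have h1 : eval r (X ^ d + ∑ j ∈ Finset.range d, C (a j i) * X ^ j : V[X]) = 0 := hr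
    rw [eval_add, eval_pow, eval_X, eval_finsetSum] at h1
    simpa [eval_mul, eval_pow] using h1
  choose r hr using hroot
  refine ⟨(r : Germ (U : Filter I) V), ?_⟩
  rw [eval_eq_sum_range, Finset.sum_range_succ, ← hd]
  have hlc : p.coeff d = 1 := hp.coeff_natDegree
  rw [hlc, one_mul, add_comm]
  let q := Germ.coeRingHom (R := V) (U : Filter I)
  have h1 : ∀ j, p.coeff j = q (a j) := fun j => (ha j).symm
  have h2 : (r : Germ (U : Filter I) V) = q r := rfl
  rw [h2, Finset.sum_congr rfl (fun j _ => by rw [h1 j, ← map_pow, ← map_mul]), ← map_pow,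
    ← map_sum, ← map_add, ← map_zero q]
  congr 1
  funext i
  simpa using hr i

/-- an embedding with prescribed values on a transcendence basis -/
theorem exists_hom {k K Ω ι : Type*} [Field k] [Field K] [Algebra k K] [Field Ω] [IsAlgClosed Ω]
    [Algebra k Ω] {y : ι → K} (hy : IsTranscendenceBasis k y) {ω : ι → Ω}
    (hω : AlgebraicIndependent k ω) : ∃ φ : K →ₐ[k] Ω, ∀ j, φ (y j) = ω j := by
  let e1 := hy.1.aevalEquivField
  let e2 := hω.aevalEquivField
  let i : adjoin k (Set.range y) →ₐ[k] Ω :=
    (adjoin k (Set.range ω)).val.comp (e2.toAlgHom.comp e1.symm.toAlgHom)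
  have hi : ∀ j, i ⟨y j, subset_adjoin k _ ⟨j, rfl⟩⟩ = ω j := by
    intro j
    have h1 : e1.symm ⟨y j, subset_adjoin k _ ⟨j, rfl⟩⟩ =
        algebraMap (MvPolynomial ι k) (FractionRing (MvPolynomial ι k)) (MvPolynomial.X j) := by
      rw [AlgEquiv.symm_apply_eq]
      apply Subtype.ext
      have := hy.1.aevalEquivField_algebraMap_apply_coe (MvPolynomial.X j)
      rw [MvPolynomial.aeval_X] at this
      exact this.symm
    have h2 : ((e2 (algebraMap (MvPolynomial ι k) (FractionRing (MvPolynomial ι k))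
        (MvPolynomial.X j)) : adjoin k (Set.range ω)) : Ω) = ω j := by
      have := hω.aevalEquivField_algebraMap_apply_coe (MvPolynomial.X j)
      rw [MvPolynomial.aeval_X] at this
      exact this
    calc i ⟨y j, subset_adjoin k _ ⟨j, rfl⟩⟩
        = ((e2 (e1.symm ⟨y j, subset_adjoin k _ ⟨j, rfl⟩⟩) : adjoin k (Set.range ω)) : Ω) := rfl
      _ = ω j := by rw [h1, h2]
  letI : Algebra (adjoin k (Set.range y)) Ω := i.toRingHom.toAlgebra
  haveI : IsScalarTower k (adjoin k (Set.range y)) Ω :=
    IsScalarTower.of_algebraMap_eq (fun c => (i.commutes c).symm)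
  haveI : Algebra.IsAlgebraic (adjoin k (Set.range y)) K := hy.isAlgebraic_field
  let φ : K →ₐ[adjoin k (Set.range y)] Ω := IsAlgClosed.lift
  refine ⟨φ.restrictScalars k, fun j => ?_⟩
  have h3 := φ.commutes ⟨y j, subset_adjoin k _ ⟨j, rfl⟩⟩
  exact h3.trans (hi j)

end Pool.Agent.H2.HER
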