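import Pool.Agent.H2.HER.Germ

/-!
# HER Hered

Specialisation by an ultrafilter: the heredity of the fields `M_r^s`.
-/

set_option autoImplicit false
set_option linter.style.haveILetI false

namespace Pool.Agent.H2.HER

open Polynomial IntermediateField Filter

/-- the points at which a polynomial does not vanish -/
def DD (k : Type*) {V ι : Type*} [Field k] [Field V] [Algebra k V] (P : MvPolynomial ι V) :
    Set (ι → k) := {e | MvPolynomial.eval (fun j => algebraMap k V (e j)) P ≠ 0}

/-- an ultrafilter which contains a dense set `E` and the nonvanishing set of every nonzero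
polynomial -/
theorem exists_ultrafilter {k V ι : Type*} [Field k] [Field V] [Algebra k V] (E : Set (ι → k))
    (hE : ∀ P : MvPolynomial ι V, P ≠ 0 → (E ∩ DD k P).Nonempty) :
    ∃ U : Ultrafilter (ι → k), (∀ᶠ e in (U : Filter (ι → k)), e ∈ E) ∧
      ∀ P : MvPolynomial ι V, P ≠ 0 → ∀ᶠ e in (U : Filter (ι → k)), e ∈ DD k P := by
  let F : Filter (ι → k) := ⨅ P : {P : MvPolynomial ι V // P ≠ 0}, 𝓟 (E ∩ DD k P.1)
  have hne : Nonempty {P : MvPolynomial ι V // P ≠ 0} := ⟨⟨1, one_ne_zero⟩⟩
  have hF : F.NeBot := by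
    refine iInf_neBot_of_directed' ?_ ?_
    · intro P Q
      refine ⟨⟨P.1 * Q.1, mul_ne_zero P.2 Q.2⟩, ?_, ?_⟩
      · refine principal_mono.2 (fun c hc => ⟨hc.1, ?_⟩)
        have hc' : MvPolynomial.eval (fun j => algebraMap k V (c j)) (P.1 * Q.1) ≠ 0 := hc.2
        rw [map_mul] at hc'
        exact left_ne_zero_of_mul hc'
      · refine principal_mono.2 (fun c hc => ⟨hc.1, ?_⟩)
        have hc' : MvPolynomial.eval (fun j => algebraMap k V (c j)) (P.1 * Q.1) ≠ 0 := hc.2
        rw [map_mul] at hc'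
        exact right_ne_zero_of_mul hc'
    · intro P
      rw [principal_neBot_iff]
      exact hE P.1 P.2
  have h1 : ∀ P : MvPolynomial ι V, P ≠ 0 → ∀ᶠ e in F, e ∈ E ∩ DD k P := fun P hP =>
    mem_iInf_of_mem (f := fun P : {P : MvPolynomial ι V // P ≠ 0} => 𝓟 (E ∩ DD k P.1)) ⟨P, hP⟩
      (mem_principal_self _)
  refine ⟨Ultrafilter.of F, ?_, fun P hP => ?_⟩
  · exact ((h1 1 one_ne_zero).filter_mono (Ultrafilter.of_le F)).mono (fun e he => he.1)
  · exact ((h1 P hP).filter_mono (Ultrafilter.of_le F)).mono (fun e he => he.2)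

/-- over an infinite field the whole space is dense -/
theorem dense_univ {k V ι : Type*} [Field k] [Infinite k] [Field V] [Algebra k V]
    (P : MvPolynomial ι V) (hP : P ≠ 0) : (Set.univ ∩ DD k P).Nonempty := by
  rw [Set.univ_inter]
  by_contra hcon
  rw [Set.not_nonempty_iff_eq_empty] at hcon
  apply hP
  refine MvPolynomial.funext_set (fun _ => Set.range (algebraMap k V))
    (fun _ => Set.infinite_range_of_injective (algebraMap k V).injective) (fun z hz => ?_)
  choose c hc using fun j => hz j (Set.mem_univ j)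
  have h1 : c ∉ DD k P := by rw [hcon]; exact Set.notMem_empty c
  have h2 : MvPolynomial.eval (fun j => algebraMap k V (c j)) P = 0 := not_not.1 h1
  rw [map_zero, ← h2]
  congr 1
  congr 1
  funext j
  exact (hc j).symm

section

variable {I : Type*} {U : Ultrafilter I} {k k' V K : Type*} [Field k] [Field k'] [Field V]
  [Field K] [Algebra k V] [Algebra k' K]

/-- the elements whose components lie almost everywhere in the fields `T i` -/
def pull (φ : K →+* Germ (U : Filter I) V)
    (hφ : ∀ c : k', ∃ f : I → k, φ (algebraMap k' K c) =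
      Germ.coeRingHom (U : Filter I) (fun i => algebraMap k V (f i)))
    (T : I → IntermediateField k V) : IntermediateField k' K where
  carrier := {z | ∃ f : I → V, φ z = Germ.coeRingHom (U : Filter I) f ∧
    ∀ᶠ i in (U : Filter I), f i ∈ T i}
  mul_mem' := by
    rintro a b ⟨f, hf, hf'⟩ ⟨g, hg, hg'⟩
    refine ⟨f * g, by rw [map_mul, hf, hg, map_mul], ?_⟩
    exact (hf'.and hg').mono (fun i hi => mul_mem hi.1 hi.2)
  one_mem' := ⟨1, by rw [map_one, map_one], Eventually.of_forall fun i => one_mem _⟩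
  add_mem' := by
    rintro a b ⟨f, hf, hf'⟩ ⟨g, hg, hg'⟩
    refine ⟨f + g, by rw [map_add, hf, hg, map_add], ?_⟩
    exact (hf'.and hg').mono (fun i hi => add_mem hi.1 hi.2)
  zero_mem' := ⟨0, by rw [map_zero, map_zero], Eventually.of_forall fun i => zero_mem _⟩
  algebraMap_mem' := fun c => by
    obtain ⟨f, hf⟩ := hφ c
    exact ⟨fun i => algebraMap k V (f i), hf,
      Eventually.of_forall fun i => (T i).algebraMap_mem (f i)⟩
  inv_mem' := by
    rintro a ⟨f, hf, hf'⟩
    refine ⟨f⁻¹, ?_, hf'.mono fun i hi => inv_mem hi⟩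
    rw [map_inv₀, hf]
    rfl

/-- a root of a nonzero polynomial, from its coefficients -/
theorem isAlgebraic_of_sum {T : IntermediateField k V} (b : ℕ → V) (N : ℕ)
    (hb : ∀ j ∈ Finset.range N, b j ∈ T) (hbd : ∃ d ∈ Finset.range N, b d ≠ 0) {g : V}
    (h : ∑ j ∈ Finset.range N, b j * g ^ j = 0) : IsAlgebraic T g := by
  classical
  obtain ⟨d, hd, hbd⟩ := hbd
  let P : T[X] := ∑ j ∈ (Finset.range N).attach, monomial j.1 (⟨b j, hb j.1 j.2⟩ : T)
  have hcoef : P.coeff d = ⟨b d, hb d hd⟩ := by
    simp only [P]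
    rw [finsetSum_coeff, Finset.sum_eq_single (⟨d, hd⟩ : {x // x ∈ Finset.range N})]
    · rw [coeff_monomial, if_pos rfl]
    · intro j _ hj
      rw [coeff_monomial, if_neg (fun h => hj (Subtype.ext h))]
    · intro h
      exact absurd (Finset.mem_attach _ _) h
  refine ⟨P, ?_, ?_⟩
  · intro h0
    rw [h0, coeff_zero] at hcoef
    exact hbd (congrArg Subtype.val hcoef).symm
  · simp only [P]
    rw [map_sum, ← h, ← Finset.sum_attach (Finset.range N) (fun j => b j * g ^ j)]
    refine Finset.sum_congr rfl (fun j _ => ?_)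
    rw [aeval_monomial]
    rfl

/-- algebraic elements specialise to algebraic elements -/
theorem ac_le_pull {φ : K →+* Germ (U : Filter I) V}
    {hφ : ∀ c : k', ∃ f : I → k, φ (algebraMap k' K c) =
      Germ.coeRingHom (U : Filter I) (fun i => algebraMap k V (f i))}
    {A : IntermediateField k' K} {T : I → IntermediateField k V} (h1 : A ≤ pull φ hφ T) :
    ALG.ac A ≤ pull φ hφ (fun i => ALG.ac (T i)) := by
  classical
  intro z hz
  rw [ALG.mem_ac] at hz
  obtain ⟨p, hp0, hpz⟩ := hz
  choose b hb hbT using fun j => h1 (p.coeff j).2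
  obtain ⟨g, hg⟩ : ∃ g : I → V, Germ.coeRingHom (U : Filter I) g = φ z :=
    ⟨Quotient.out (φ z), Quotient.out_eq _⟩
  refine ⟨g, hg.symm, ?_⟩
  set d := p.natDegree with hd
  have hsum : ∑ j ∈ Finset.range (d + 1), ((p.coeff j : A) : K) * z ^ j = 0 := by
    rw [← hpz, aeval_def, eval₂_eq_sum_range]
    rfl
  have hsum2 : Germ.coeRingHom (U : Filter I) (∑ j ∈ Finset.range (d + 1), b j * g ^ j) =
      Germ.coeRingHom (U : Filter I) 0 := by
    rw [map_sum, map_zero, ← map_zero φ, ← hsum, map_sum]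
    refine Finset.sum_congr rfl (fun j _ => ?_)
    rw [map_mul, map_mul, map_pow, map_pow, hg, hb j]
  have hev1 : ∀ᶠ i in (U : Filter I), (∑ j ∈ Finset.range (d + 1), b j * g ^ j) i = 0 :=
    Germ.coe_eq.1 hsum2
  have hev2 : ∀ᶠ i in (U : Filter I), b d i ≠ 0 := by
    have h2 : ¬ ∀ᶠ i in (U : Filter I), b d i = 0 := by
      intro h3
      have h4 : Germ.coeRingHom (U : Filter I) (b d) = Germ.coeRingHom (U : Filter I) 0 :=
        Germ.coe_eq.2 h3
      rw [← hb d, map_zero, map_eq_zero] at h4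
      have h5 : p.coeff d = 0 := Subtype.ext h4
      exact hp0 (leadingCoeff_eq_zero.1 h5)
    exact Ultrafilter.eventually_not.2 h2
  have hev3 : ∀ᶠ i in (U : Filter I), ∀ j ∈ Finset.range (d + 1), b j i ∈ T i :=
    (eventually_all_finset _).2 (fun j _ => hbT j)
  filter_upwards [hev1, hev2, hev3] with i hi1 hi2 hi3
  rw [ALG.mem_ac]
  refine isAlgebraic_of_sum (fun j => b j i) (d + 1) hi3 ⟨d, Finset.self_mem_range_succ d, hi2⟩ ?_
  rw [← hi1, Finset.sum_apply]
  rfl

theorem bracket_le_pull {φ : K →+* Germ (U : Filter I) V}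
    {hφ : ∀ c : k', ∃ f : I → k, φ (algebraMap k' K c) =
      Germ.coeRingHom (U : Filter I) (fun i => algebraMap k V (f i))}
    {r : ℕ} (t : Fin r → K) (f : Fin r → I → V)
    (hf : ∀ j, φ (t j) = Germ.coeRingHom (U : Filter I) (f j)) :
    ALG.bracket (k := k') t ≤ pull φ hφ (fun i => ALG.bracket (k := k) (fun j => f j i)) := by
  rw [ALG.bracket_eq]
  refine ac_le_pull (T := fun i => adjoin k (Set.range (fun j => f j i))) ?_
  rw [adjoin_le_iff]
  rintro _ ⟨j, rfl⟩
  exact ⟨f j, hf j, Eventually.of_forall fun i => subset_adjoin k _ ⟨j, rfl⟩⟩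

/-- the fields `M_r^s` specialise to the fields `M_r^s` -/
theorem M_le_pull {φ : K →+* Germ (U : Filter I) V}
    {hφ : ∀ c : k', ∃ f : I → k, φ (algebraMap k' K c) =
      Germ.coeRingHom (U : Filter I) (fun i => algebraMap k V (f i))}
    {n m : ℕ} {X : Fin n → K} {x : Fin m → V}
    (hX : ∀ i, (∃ j, φ (X i) = Germ.coeRingHom (U : Filter I) (fun _ => x j)) ∨
      ∃ f : I → k, φ (X i) = Germ.coeRingHom (U : Filter I) (fun i => algebraMap k V (f i)))
    (r s : ℕ) : ALG.M k' X r s ≤ pull φ hφ (fun _ => ALG.M k x r s) := by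
  have hbase : adjoin k' (Set.range X) ≤ pull φ hφ (fun _ => adjoin k (Set.range x)) := by
    rw [adjoin_le_iff]
    rintro _ ⟨i, rfl⟩
    rcases hX i with ⟨j, hj⟩ | ⟨f, hf⟩
    · exact ⟨fun _ => x j, hj, Eventually.of_forall fun _ => subset_adjoin k _ ⟨j, rfl⟩⟩
    · exact ⟨fun i => algebraMap k V (f i), hf,
        Eventually.of_forall fun _ => IntermediateField.algebraMap_mem _ _⟩
  induction s using Nat.strong_induction_on with
  | _ s ih =>
    rcases s with _ | _ | s
    · exact hbase
    · exact hbase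
    · rw [ALG.M]
      refine iSup_le (fun t => ?_)
      have ht := fun j => ih (s + 1) (by omega) (t.2 j)
      choose f hf hfM using ht
      refine (bracket_le_pull (hφ := hφ) t.1 f hf).trans ?_
      rintro z ⟨g, hg, hgb⟩
      refine ⟨g, hg, ?_⟩
      have hall : ∀ᶠ c in (U : Filter I), ∀ j, f j c ∈ ALG.M k x r (s + 1) :=
        eventually_all.2 hfM
      filter_upwards [hgb, hall] with c hc1 hc2
      exact ALG.bracket_le_M r s (fun j => f j c) hc2 hc1

end

/-- specialisation: an ultrafilter and an embedding into the ultrapower -/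
theorem exists_spec {k V K ι : Type*} [Field k] [Field V] [IsAlgClosed V] [Algebra k V] [Field K]
    [Algebra V K] {y : ι → K} (hy : IsTranscendenceBasis V y) (E : Set (ι → k))
    (hE : ∀ P : MvPolynomial ι V, P ≠ 0 → (E ∩ DD k P).Nonempty) :
    ∃ (U : Ultrafilter (ι → k)) (φ : K →+* Germ (U : Filter (ι → k)) V),
      (∀ᶠ e in (U : Filter (ι → k)), e ∈ E) ∧
      (∀ P : MvPolynomial ι V, φ (MvPolynomial.aeval y P) =
        Germ.coeRingHom (U : Filter (ι → k))
          (fun e => MvPolynomial.eval (fun j => algebraMap k V (e j)) P)) := by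
  classical
  obtain ⟨U, hUE, hU⟩ := exists_ultrafilter E hE
  set St := Germ (U : Filter (ι → k)) V with hSt
  let q : ((ι → k) → V) →+* St := Germ.coeRingHom (U : Filter (ι → k))
  letI : Algebra V St := (q.comp (Pi.constRingHom (ι → k) V)).toAlgebra
  have halg : ∀ v : V, algebraMap V St v = q (fun _ => v) := fun v => rfl
  haveI : IsAlgClosed St := isAlgClosed_germ U
  let ω : ι → St := fun j => q (fun c => algebraMap k V (c j))
  have haev : ∀ P : MvPolynomial ι V, MvPolynomial.aeval ω P =
      q (fun c => MvPolynomial.eval (fun j => algebraMap k V (c j)) P) := by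
    intro P
    induction P using MvPolynomial.induction_on with
    | C a =>
      rw [MvPolynomial.aeval_C, halg]
      congr 1
      funext c
      rw [MvPolynomial.eval_C]
    | add P Q hP hQ =>
      rw [map_add, hP, hQ, ← map_add]
      congr 1
      funext c
      rw [map_add]
      rfl
    | mul_X P j hP =>
      rw [map_mul, hP, MvPolynomial.aeval_X, ← map_mul]
      congr 1
      funext c
      rw [map_mul, MvPolynomial.eval_X]
      rfl
  have hω : AlgebraicIndependent V ω := by
    rw [algebraicIndependent_iff]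
    intro P hP
    by_contra hP0
    rw [haev, ← map_zero q] at hP
    have h1 : ∀ᶠ c in (U : Filter (ι → k)),
        MvPolynomial.eval (fun j => algebraMap k V (c j)) P = 0 := Germ.coe_eq.1 hP
    obtain ⟨c, hc1, hc2⟩ := (h1.and (hU P hP0)).exists
    exact hc2 hc1
  obtain ⟨φ, hφ⟩ := exists_hom hy hω
  refine ⟨U, (φ : K →+* St), hUE, fun P => ?_⟩
  have h1 : (φ : K →+* St) (MvPolynomial.aeval y P) = φ (MvPolynomial.aeval y P) := rfl
  have h2 : φ (MvPolynomial.aeval y P) = MvPolynomial.aeval ω P := by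
    rw [MvPolynomial.comp_aeval_apply]
    have h3 : (fun j => φ (y j)) = ω := funext hφ
    rw [h3]
  rw [h1, h2, haev]

/-- constants specialise to constants -/
theorem spec_const {k k' V K I : Type*} [Field k] [IsAlgClosed k] [Field k'] [Field V] [Field K]
    [Algebra k V] [Algebra k K] [Algebra k' K] {U : Ultrafilter I}
    (φ : K →+* Germ (U : Filter I) V)
    (hφ : ∀ c : k, φ (algebraMap k K c) = Germ.coeRingHom (U : Filter I)
      (fun _ => algebraMap k V c)) {ι : Type*} (y : ι → K)
    (hy : ∀ j, ∃ f : I → k, φ (y j) = Germ.coeRingHom (U : Filter I)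
      (fun i => algebraMap k V (f i)))
    (hk' : ∀ c : k', algebraMap k' K c ∈ ALG.ac (adjoin k (Set.range y))) (c : k') :
    ∃ f : I → k, φ (algebraMap k' K c) = Germ.coeRingHom (U : Filter I)
      (fun i => algebraMap k V (f i)) := by
  have hφ' : ∀ c : k, ∃ f : I → k, φ (algebraMap k K c) = Germ.coeRingHom (U : Filter I)
      (fun i => algebraMap k V (f i)) := fun c => ⟨fun _ => c, hφ c⟩
  have h1 : adjoin k (Set.range y) ≤ pull φ hφ' (fun _ => (⊥ : IntermediateField k V)) := by
    rw [adjoin_le_iff]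
    rintro _ ⟨j, rfl⟩
    obtain ⟨f, hf⟩ := hy j
    exact ⟨fun i => algebraMap k V (f i), hf,
      Eventually.of_forall fun i => IntermediateField.algebraMap_mem _ _⟩
  obtain ⟨g, hg, hgb⟩ := ac_le_pull h1 (hk' c)
  have h2 : ALG.ac (⊥ : IntermediateField k V) = ⊥ := by
    have h3 : Algebra.IsAlgebraic k (ALG.ac (⊥ : IntermediateField k V)) := by
      constructor
      intro a
      have h4 : IsAlgebraic (⊥ : IntermediateField k V) (a : V) := ALG.mem_ac.1 a.2
      have h5 : IsAlgebraic k (a : V) := by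
        have : Algebra.IsAlgebraic k (⊥ : IntermediateField k V) :=
          (IntermediateField.botEquiv k V).symm.isAlgebraic
        exact h4.restrictScalars k
      exact (isAlgebraic_algHom_iff (ALG.ac (⊥ : IntermediateField k V)).val
        Subtype.val_injective).1 h5
    exact IntermediateField.eq_bot_of_isAlgClosed_of_isAlgebraic _
  have h3 : ∀ i, ∃ a : k, g i ∈ ALG.ac (⊥ : IntermediateField k V) → algebraMap k V a = g i := by
    intro i
    by_cases hi : g i ∈ ALG.ac (⊥ : IntermediateField k V)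
    · rw [h2, IntermediateField.mem_bot] at hi
      obtain ⟨a, ha⟩ := hi
      exact ⟨a, fun _ => ha⟩
    · exact ⟨0, fun h => absurd h hi⟩
  choose f hf using h3
  refine ⟨f, ?_⟩
  rw [hg]
  refine Germ.coe_eq.2 ?_
  filter_upwards [hgb] with i hi
  exact (hf i hi).symm

/-- HEREDITY, abstract form -/
theorem hered {k k' V K ι : Type*} [Field k] [IsAlgClosed k] [Field k'] [Field V] [IsAlgClosed V]
    [Algebra k V] [Field K] [Algebra k K] [Algebra k' K] [Algebra V K] [IsScalarTower k V K]
    {n m : ℕ} {X : Fin n → K} {x : Fin m → V} {y : ι → K} (hy : IsTranscendenceBasis V y)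
    (hk' : ∀ c : k', algebraMap k' K c ∈ ALG.ac (adjoin k (Set.range y)))
    (hX : ∀ i, (∃ j, X i = algebraMap V K (x j)) ∨ ∃ j, X i = y j) (r s : ℕ) (u : V)
    (hu : algebraMap V K u ∈ ALG.M k' X r s) : u ∈ ALG.M k x r s := by
  obtain ⟨U, φ, -, hφ⟩ := exists_spec (k := k) hy Set.univ (fun P hP => dense_univ P hP)
  have hV : ∀ v : V, φ (algebraMap V K v) = Germ.coeRingHom (U : Filter (ι → k)) (fun _ => v) := by
    intro v
    have h1 := hφ (MvPolynomial.C v)
    rw [MvPolynomial.aeval_C] at h1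
    rw [h1]
    congr 1
    funext e
    rw [MvPolynomial.eval_C]
  have hyf : ∀ j, φ (y j) = Germ.coeRingHom (U : Filter (ι → k))
      (fun e => algebraMap k V (e j)) := by
    intro j
    have h1 := hφ (MvPolynomial.X j)
    rw [MvPolynomial.aeval_X] at h1
    rw [h1]
    congr 1
    funext e
    rw [MvPolynomial.eval_X]
  have hk : ∀ c : k, φ (algebraMap k K c) = Germ.coeRingHom (U : Filter (ι → k))
      (fun _ => algebraMap k V c) := by
    intro c
    rw [IsScalarTower.algebraMap_apply k V K]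
    exact hV _
  have hc := spec_const φ hk y (fun j => ⟨_, hyf j⟩) hk'
  obtain ⟨f, hf, hfM⟩ := M_le_pull (hφ := hc) (X := X) (x := x) (by
    intro i
    rcases hX i with ⟨j, hj⟩ | ⟨j, hj⟩
    · exact Or.inl ⟨j, by rw [hj]; exact hV _⟩
    · exact Or.inr ⟨_, by rw [hj]; exact hyf j⟩) r s hu
  rw [hV] at hf
  have h2 : ∀ᶠ c in (U : Filter (ι → k)), u = f c := Germ.coe_eq.1 hf
  obtain ⟨c, hc1, hc2⟩ := (h2.and hfM).exists
  rw [hc1]
  exact hc2

end Pool.Agent.H2.HER
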