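import Pool.Agent.H2.HER.Thm3

/-!
# HER Inf

Comparison of the fields of constants: infinite transcendence degree.
-/

set_option autoImplicit false
set_option linter.style.haveILetI false

namespace Pool.Agent.H2.HER

open Polynomial IntermediateField

universe w

open IntermediateField.algebraAdjoinAdjoin in
/-- independent elements are a transcendence basis of the algebraic closure of the field they
generate -/
theorem basis_bracket {k K : Type*} [Field k] [Field K] [Algebra k K] {n : ℕ} (x : Fin n → K)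
    (hx : AlgebraicIndependent k x) :
    IsTranscendenceBasis k
      (fun j => (⟨x j, ALG.mem_bracket _ j⟩ : ALG.bracket (k := k) x)) := by
  let x' : Fin n → ALG.bracket (k := k) x := fun j => ⟨x j, ALG.mem_bracket _ j⟩
  have hval' : (ALG.bracket (k := k) x).val ∘ x' = x := rfl
  have hx' : AlgebraicIndependent k x' :=
    (AlgHom.algebraicIndependent_iff (ALG.bracket (k := k) x).val Subtype.val_injective).1 hx
  refine (hx'.isTranscendenceBasis_iff_isAlgebraic).2 ⟨fun w => ?_⟩
  have h1 : (ALG.bracket (k := k) x).val w ∈ ALG.ac ((adjoin k (Set.range x')).map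
      (ALG.bracket (k := k) x).val) := by
    rw [map_adjoin_range, hval', ← ALG.bracket_eq]
    exact w.2
  have h2 := ALG.mem_ac.1 ((map_mem_ac _).1 h1)
  rw [← IsFractionRing.isAlgebraic_iff (Algebra.adjoin k (Set.range x'))] at h2
  exact h2

/-- `M_r(n) = K_n` in every model -/
theorem bracket_le_MU_iff {k K : Type*} [Field k] [Field K] [Algebra k K] [IsAlgClosed K] {n : ℕ}
    {x : Fin n → K} (hx : AlgebraicIndependent k x) (r : ℕ) :
    ALG.bracket (k := k) x ≤ MU k x r ↔ MU k (xn k n) r = ⊤ := by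
  obtain ⟨φ, hφ⟩ := exists_hom (basis_xn k n) hx
  have hφ' : φ ∘ xn k n = x := funext hφ
  have hbz : ALG.bracket (k := k) (xn k n) = ⊤ := by
    rw [ALG.bracket_eq]; exact ALG.ac_top_of_basis (basis_xn k n)
  have h1 : MU k x r = (MU k (xn k n) r).map φ := by
    rw [MU, MU, IntermediateField.map_iSup]
    exact iSup_congr (fun s => by rw [map_M, hφ'])
  have h2 : ALG.bracket (k := k) x = (⊤ : IntermediateField k (Kn k n)).map φ := by
    rw [← hφ', ← map_bracket, hbz]
  rw [h1, h2]
  constructor
  · intro h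
    rw [eq_top_iff]
    intro w _
    obtain ⟨w', hw', hww⟩ := h ⟨w, mem_top, rfl⟩
    have h4 : w' = w := φ.toRingHom.injective hww
    rw [← h4]; exact hw'
  · intro h
    rw [h]

/-- an element algebraic over `k(Z)` is algebraic over `k` adjoined finitely many elements of `Z` -/
theorem exists_finite_sub {k K ι : Type*} [Field k] [Field K] [Algebra k K] (Z : ι → K) (z : K)
    (hz : IsAlgebraic (Algebra.adjoin k (Set.range Z)) z) :
    ∃ T : Finset ι, IsAlgebraic (Algebra.adjoin k (Z '' (T : Set ι))) z := by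
  classical
  obtain ⟨p, hp0, hpz⟩ := hz
  have h2 : ∀ j, ∃ B : MvPolynomial ι k, MvPolynomial.aeval Z B =
      ((p.coeff j : Algebra.adjoin k (Set.range Z)) : K) := by
    intro j
    have h3 : ((p.coeff j : Algebra.adjoin k (Set.range Z)) : K) ∈
        (MvPolynomial.aeval Z : MvPolynomial ι k →ₐ[k] K).range := by
      rw [← Algebra.adjoin_range_eq_range_aeval]
      exact (p.coeff j).2
    exact h3
  choose B hB using h2
  set N := p.natDegree with hN
  let T : Finset ι := (Finset.range (N + 1)).biUnion (fun j => (B j).vars)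
  have hmem : ∀ j ∈ Finset.range (N + 1), MvPolynomial.aeval Z (B j) ∈
      Algebra.adjoin k (Z '' (T : Set ι)) := by
    intro j hj
    rw [MvPolynomial.aeval_def, MvPolynomial.eval₂_eq]
    have h3 : ∀ i ∈ (B j).vars, Z i ∈ Algebra.adjoin k (Z '' (T : Set ι)) := fun i hi =>
      Algebra.subset_adjoin ⟨i, Finset.mem_coe.2 (Finset.mem_biUnion.2 ⟨j, hj, hi⟩), rfl⟩
    exact Subalgebra.sum_mem _ (fun m hm => Subalgebra.mul_mem _ (Subalgebra.algebraMap_mem _ _)
      (Subalgebra.prod_mem _ (fun i hi => Subalgebra.pow_mem _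
        (h3 i ((MvPolynomial.mem_vars_iff_mem_support i).2 ⟨m, hm, hi⟩)) _)))
  let P : (Algebra.adjoin k (Z '' (T : Set ι)))[X] :=
    ∑ j ∈ (Finset.range (N + 1)).attach,
      monomial j.1 (⟨MvPolynomial.aeval Z (B j.1), hmem j.1 j.2⟩ :
        Algebra.adjoin k (Z '' (T : Set ι)))
  have hd : N ∈ Finset.range (N + 1) := Finset.self_mem_range_succ N
  refine ⟨T, P, ?_, ?_⟩
  · intro h0
    have hcoef : P.coeff N = ⟨MvPolynomial.aeval Z (B N), hmem N hd⟩ := by
      simp only [P]
      rw [finsetSum_coeff, Finset.sum_eq_single (⟨N, hd⟩ : {x // x ∈ Finset.range (N + 1)})]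
      · rw [coeff_monomial, if_pos rfl]
      · intro j _ hj
        rw [coeff_monomial, if_neg (fun h => hj (Subtype.ext h))]
      · intro h
        exact absurd (Finset.mem_attach _ _) h
    rw [h0, coeff_zero] at hcoef
    have h3 : (0 : K) = MvPolynomial.aeval Z (B N) := congrArg Subtype.val hcoef
    rw [hB] at h3
    have h5 : p.coeff N = 0 := Subtype.ext h3.symm
    exact hp0 (leadingCoeff_eq_zero.1 h5)
  · simp only [P]
    rw [map_sum, ← hpz, aeval_def, eval₂_eq_sum_range,
      ← Finset.sum_attach (Finset.range (N + 1))]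
    refine Finset.sum_congr rfl (fun j _ => ?_)
    rw [aeval_monomial]
    change MvPolynomial.aeval Z (B j.1) * z ^ j.1 = _
    rw [hB]
    rfl

/-- transport of an element by an embedding of its field of constants into `k` -/
theorem transport {E k k' K L : Type*} [Field E] [IsAlgClosed E] [Field k] [Field k'] [Field K]
    [IsAlgClosed K] [Field L] [IsAlgClosed L] [Algebra E k] [Algebra k L] [Algebra E L]
    [IsScalarTower E k L] [Algebra E k'] [Algebra k' K] [Algebra E K] [IsScalarTower E k' K]
    {n : ℕ} (x : Fin n → K) (hx : IsTranscendenceBasis k' x) (X : Fin n → L)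
    (hX : IsTranscendenceBasis k X) {r : ℕ} (hr : 1 ≤ r) (htop : MU k X r = ⊤) (z : K)
    (hz : z ∈ ALG.bracket (k := E) x) : z ∈ MU k' x r := by
  have hxE : AlgebraicIndependent E x := hx.1.restrictScalars (algebraMap E k').injective
  have hXE : AlgebraicIndependent E X := hX.1.restrictScalars (algebraMap E k).injective
  set K₁ := ALG.bracket (k := E) x with hK₁
  haveI : IsAlgClosed K₁ := isAlgClosed_bracket _
  let x₁ : Fin n → K₁ := fun j => ⟨x j, ALG.mem_bracket _ j⟩
  have hxb : IsTranscendenceBasis E x₁ := basis_bracket x hxE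
  obtain ⟨φ, hφ⟩ := exists_hom hxb hXE
  have hφ' : φ ∘ x₁ = X := funext hφ
  have h1 : φ ⟨z, hz⟩ ∈ MU k X r := by rw [htop]; exact mem_top
  obtain ⟨s, hs⟩ := (mem_MU hr).1 h1
  have h2 : φ ⟨z, hz⟩ ∈ ALG.bracket (k := E) X := by
    rw [← hφ', ← map_bracket, ALG.bracket_eq x₁, ALG.ac_top_of_basis hxb]
    exact ⟨⟨z, hz⟩, mem_top, rfl⟩
  have h3 : φ ⟨z, hz⟩ ∈ ALG.M E X r (s + 1) :=
    (heredity_gen (k := E) (k' := k) X hX le_rfl r (s + 1) _).1 ⟨hs, h2⟩
  rw [← hφ', ← map_M] at h3
  obtain ⟨w, hw, hwz⟩ := h3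
  have h4 : w = ⟨z, hz⟩ := φ.toRingHom.injective hwz
  have h5 : z ∈ (ALG.M E x₁ r (s + 1)).map K₁.val := ⟨w, hw, by rw [h4]; rfl⟩
  rw [map_M] at h5
  exact M_le_MU x r (s + 1) (M_mono_const (k := E) (k' := k') (X := x) (x := K₁.val ∘ x₁)
    (fun j => subset_adjoin k' _ ⟨j, rfl⟩) r (s + 1) h5)

theorem mem_ac_of_adjoin {F E K : Type*} [Field F] [Field E] [Field K] [Algebra F E] [Algebra E K]
    [Algebra F K] [IsScalarTower F E K] (S : Set K) (A : IntermediateField E K)
    (hS : ∀ w ∈ S, w ∈ A) (z : K) (hz : IsAlgebraic (Algebra.adjoin F S) z) : z ∈ ALG.ac A := by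
  rw [ALG.mem_ac]
  exact IsAlgebraic.tower_top_of_subalgebra_le (B := (A.restrictScalars F).toSubalgebra)
    (Algebra.adjoin_le hS) hz

/-- transport of an inclusion by an embedding of the field of constants into `k` -/
theorem transport_incl {E k k' K L : Type*} [Field E] [IsAlgClosed E] [Field k] [Field k'] [Field K]
    [IsAlgClosed K] [Field L] [IsAlgClosed L] [Algebra E k] [Algebra k L] [Algebra E L]
    [IsScalarTower E k L] [Algebra E k'] [Algebra k' K] [Algebra E K] [IsScalarTower E k' K]
    {n : ℕ} (x : Fin n → K) (hx : IsTranscendenceBasis k' x) (X : Fin n → L)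
    (hX : IsTranscendenceBasis k X) {r s r' s' : ℕ} (hincl : ALG.M k X r s ≤ ALG.M k X r' s')
    (z : K) (hz : z ∈ ALG.bracket (k := E) x) (hzM : z ∈ ALG.M k' x r s) :
    z ∈ ALG.M k' x r' s' := by
  have hxE : AlgebraicIndependent E x := hx.1.restrictScalars (algebraMap E k').injective
  have hXE : AlgebraicIndependent E X := hX.1.restrictScalars (algebraMap E k).injective
  set K₁ := ALG.bracket (k := E) x with hK₁
  haveI : IsAlgClosed K₁ := isAlgClosed_bracket _
  let x₁ : Fin n → K₁ := fun j => ⟨x j, ALG.mem_bracket _ j⟩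
  have hxb : IsTranscendenceBasis E x₁ := basis_bracket x hxE
  obtain ⟨φ, hφ⟩ := exists_hom hxb hXE
  have hφ' : φ ∘ x₁ = X := funext hφ
  have hval : K₁.val ∘ x₁ = x := rfl
  have h0 : z ∈ ALG.M E x r s :=
    (heredity_gen (k := E) (k' := k') x hx le_rfl r s _).1 ⟨hzM, hz⟩
  rw [← hval, ← map_M] at h0
  obtain ⟨z₁, hz₁, hz₁z⟩ := h0
  have h1 : φ z₁ ∈ ALG.M E X r s := by
    rw [← hφ', ← map_M]
    exact ⟨z₁, hz₁, rfl⟩
  have hs : φ z₁ ∈ ALG.M k X r' s' := hincl
    (M_mono_const (k := E) (k' := k) (X := X) (x := X) (fun j => subset_adjoin k _ ⟨j, rfl⟩) r s h1)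
  have h2 : φ z₁ ∈ ALG.bracket (k := E) X := by
    rw [← hφ', ← map_bracket, ALG.bracket_eq x₁, ALG.ac_top_of_basis hxb]
    exact ⟨z₁, mem_top, rfl⟩
  have h3 : φ z₁ ∈ ALG.M E X r' s' :=
    (heredity_gen (k := E) (k' := k) X hX le_rfl r' s' _).1 ⟨hs, h2⟩
  rw [← hφ', ← map_M] at h3
  obtain ⟨w, hw, hwz⟩ := h3
  have h4 : w = z₁ := φ.toRingHom.injective hwz
  have h5 : z ∈ (ALG.M E x₁ r' s').map K₁.val := ⟨w, hw, by rw [h4]; exact hz₁z⟩
  rw [map_M] at h5
  exact M_mono_const (k := E) (k' := k') (X := x) (x := K₁.val ∘ x₁)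
    (fun j => subset_adjoin k' _ ⟨j, rfl⟩) r' s' h5

/-- every element of `K_n(k')` is defined over a field of constants which embeds into `k`, for `k`
of infinite transcendence degree over some field `F` -/
theorem small_ind {F k K : Type*} (L : Type*) {k' : Type w} [Field F] [Field k] [IsAlgClosed k]
    [Field L] [Algebra k L] [Field k']
    [IsAlgClosed k'] [Field K] [IsAlgClosed K] [Algebra F k] [Algebra k k'] [Algebra F k']
    [IsScalarTower F k k'] [Algebra k' K] [Algebra F K] [IsScalarTower F k' K] {I : Type*}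
    [Infinite I] (B : I → k) (hB : IsTranscendenceBasis F B) {n : ℕ} (x : Fin n → K)
    (hx : IsTranscendenceBasis k' x) (P : K → Prop)
    (hP : ∀ (E : Type w) [Field E] [IsAlgClosed E] [Algebra E k] [Algebra E L]
      [IsScalarTower E k L] [Algebra E k'] [Algebra E K] [IsScalarTower E k' K] (z : K),
      z ∈ ALG.bracket (k := E) x → P z) (z : K) : P z := by
  classical
  obtain ⟨J, C, hC⟩ := exists_isTranscendenceBasis' k k'
  have hBC : IsTranscendenceBasis F (Sum.elim C (algebraMap k k' ∘ B)) := hB.sumElim_comp hC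
  have hZ : IsTranscendenceBasis F (Sum.elim x (algebraMap k' K ∘
    Sum.elim C (algebraMap k k' ∘ B))) := hBC.sumElim_comp hx
  obtain ⟨T, hT⟩ := exists_finite_sub _ z (hZ.isAlgebraic.isAlgebraic z)
  -- the constants
  let I₀ : Finset I := T.preimage (fun i => Sum.inr (Sum.inr i))
    (Sum.inr_injective.comp Sum.inr_injective).injOn
  let J₀ : Finset J := T.preimage (fun i => Sum.inr (Sum.inl i))
    (Sum.inr_injective.comp Sum.inl_injective).injOn
  let eI : Fin I₀.card ≃ I₀ := I₀.equivFin.symm
  let eJ : Fin J₀.card ≃ J₀ := J₀.equivFin.symm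
  let B₀ : Fin I₀.card → k := fun i => B (eI i)
  set k₀ := ALG.bracket (k := F) B₀ with hk₀
  haveI : IsAlgClosed k₀ := isAlgClosed_bracket _
  -- new parameters in `k`
  let I' : Set I := ((I₀ : Set I))ᶜ
  haveI : Infinite I' := (I₀.finite_toSet.infinite_compl).to_subtype
  let y : I' → k := fun i => B i
  have hy : AlgebraicIndependent k₀ y := by
    apply indep_rest
    let e : I' ⊕ Fin I₀.card → I := Sum.elim (fun i => i) (fun i => eI i)
    have he : Function.Injective e := by
      rintro (a | a) (b | b) h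
      · exact congrArg Sum.inl (Subtype.ext h)
      · exact absurd (show (a : I) ∈ I₀ from by
          have h' : (a : I) = eI b := h
          rw [h']; exact (eI b).2) a.2
      · exact absurd (show (b : I) ∈ I₀ from by
          have h' : (eI a : I) = b := h
          rw [← h']; exact (eI a).2) b.2
      · exact congrArg Sum.inr (eI.injective (Subtype.ext h))
    have h2 := hB.1.comp e he
    have h3 : B ∘ e = Sum.elim y B₀ := by
      funext a
      rcases a with a | a <;> rfl
    rwa [h3] at h2
  let cs : Fin J₀.card → k := fun j => y (Infinite.natEmbedding I' j)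
  have hcs : AlgebraicIndependent k₀ cs :=
    hy.comp (fun j : Fin J₀.card => Infinite.natEmbedding I' j)
      ((Infinite.natEmbedding I').injective.comp Fin.val_injective)
  -- the old parameters
  let c : Fin J₀.card → k' := fun j => C (eJ j)
  have hck : AlgebraicIndependent k c :=
    hC.1.comp (fun i => (eJ i : J)) (Subtype.val_injective.comp eJ.injective)
  have hc : AlgebraicIndependent k₀ c := hck.restrictScalars (algebraMap k₀ k).injective
  set E := ALG.bracket (k := k₀) c with hE
  haveI : IsAlgClosed E := isAlgClosed_bracket _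
  let c₁ : Fin J₀.card → E := fun j => ⟨c j, ALG.mem_bracket _ j⟩
  have hc₁ : IsTranscendenceBasis k₀ c₁ := basis_bracket c hc
  obtain ⟨e, he⟩ := exists_hom hc₁ hcs
  letI aF : Algebra F E := ((algebraMap k₀ E).comp (algebraMap F k₀)).toAlgebra
  haveI : @IsScalarTower F E K Algebra.toSMul Algebra.toSMul Algebra.toSMul := by
    refine IsScalarTower.of_algebraMap_eq (fun a => ?_)
    rw [IsScalarTower.algebraMap_apply F k' K, IsScalarTower.algebraMap_apply F k k']
    rfl
  have hzK : z ∈ ALG.bracket (k := E) x := by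
    rw [ALG.bracket_eq]
    refine mem_ac_of_adjoin _ _ ?_ z hT
    rintro _ ⟨i | j | i, hi, rfl⟩
    · exact subset_adjoin E _ ⟨i, rfl⟩
    · have hj : j ∈ J₀ := Finset.mem_preimage.2 hi
      have h1 : c (eJ.symm ⟨j, hj⟩) = C j := by
        simp only [c, Equiv.apply_symm_apply]
      have h2 : (algebraMap E K) (c₁ (eJ.symm ⟨j, hj⟩)) = algebraMap k' K (C j) := by
        rw [← h1]
        rfl
      have h3 : Sum.elim x (algebraMap k' K ∘ Sum.elim C (algebraMap k k' ∘ B))
        (Sum.inr (Sum.inl j)) = algebraMap k' K (C j) := rfl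
      rw [h3, ← h2]
      exact IntermediateField.algebraMap_mem (adjoin E (Set.range x)) _
    · have hj : i ∈ I₀ := Finset.mem_preimage.2 hi
      have h1 : B₀ (eI.symm ⟨i, hj⟩) = B i := by
        simp only [B₀, Equiv.apply_symm_apply]
      have h2 : (algebraMap E K) (algebraMap k₀ E ⟨B₀ (eI.symm ⟨i, hj⟩), ALG.mem_bracket _ _⟩) =
          algebraMap k' K (algebraMap k k' (B i)) := by
        rw [← h1]
        rfl
      have h3 : Sum.elim x (algebraMap k' K ∘ Sum.elim C (algebraMap k k' ∘ B))
        (Sum.inr (Sum.inr i)) = algebraMap k' K (algebraMap k k' (B i)) := rfl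
      rw [h3, ← h2]
      exact IntermediateField.algebraMap_mem (adjoin E (Set.range x)) _
  letI a1 : Algebra E k := (e : E →+* k).toAlgebra
  letI a2 : Algebra E L := ((algebraMap k L).comp (e : E →+* k)).toAlgebra
  haveI : @IsScalarTower E k L Algebra.toSMul Algebra.toSMul Algebra.toSMul :=
    IsScalarTower.of_algebraMap_eq (fun _ => rfl)
  exact hP E z hzK


/-- for `k` of infinite transcendence degree over some field the equality `M_r(n) = K_n` passes to
larger fields of constants -/
theorem up_inf {F k k' K : Type*} [Field F] [Field k] [IsAlgClosed k] [Field k'] [IsAlgClosed k']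
    [Field K] [IsAlgClosed K] [Algebra F k] [Algebra k k'] [Algebra F k'] [IsScalarTower F k k']
    [Algebra k' K] [Algebra F K] [IsScalarTower F k' K] {I : Type*} [Infinite I] (B : I → k)
    (hB : IsTranscendenceBasis F B) {n : ℕ} (x : Fin n → K) (hx : IsTranscendenceBasis k' x)
    {r : ℕ} (hr : 1 ≤ r) (htop : MU k (xn k n) r = ⊤) : MU k' x r = ⊤ := by
  rw [eq_top_iff]
  intro z _
  refine small_ind (Kn k n) B hB x hx (fun z => z ∈ MU k' x r) ?_ z
  intro E _ _ _ _ _ _ _ _ z hz
  exact transport (E := E) (k := k) (k' := k') x hx (xn k n) (basis_xn k n) hr htop z hz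

/-- inclusions among the fields `M_r^s` pass to larger fields of constants -/
theorem incl_inf {F k k' K : Type*} [Field F] [Field k] [IsAlgClosed k] [Field k'] [IsAlgClosed k']
    [Field K] [IsAlgClosed K] [Algebra F k] [Algebra k k'] [Algebra F k'] [IsScalarTower F k k']
    [Algebra k' K] [Algebra F K] [IsScalarTower F k' K] {I : Type*} [Infinite I] (B : I → k)
    (hB : IsTranscendenceBasis F B) {n : ℕ} (x : Fin n → K) (hx : IsTranscendenceBasis k' x)
    {r s r' s' : ℕ} (hincl : ALG.M k (xn k n) r s ≤ ALG.M k (xn k n) r' s') :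
    ALG.M k' x r s ≤ ALG.M k' x r' s' := by
  intro z hz
  refine small_ind (Kn k n) B hB x hx (fun z => z ∈ ALG.M k' x r s → z ∈ ALG.M k' x r' s') ?_ z hz
  intro E _ _ _ _ _ _ _ _ z hz
  exact transport_incl (E := E) (k := k) (k' := k') x hx (xn k n) (basis_xn k n) hincl z hz

end Pool.Agent.H2.HER
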