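import Pool.Agent.H2.HER.Hered

/-!
# HER Map

The fields `M_r^s` under embeddings of algebraically closed fields; heredity in `K`.
-/

set_option autoImplicit false
set_option linter.style.haveILetI false

namespace Pool.Agent.H2.HER

open Polynomial IntermediateField

variable {k K : Type*} [Field k] [Field K] [Algebra k K]

/-- an element of `K` algebraic over the image of an algebraically closed field lies in it -/
theorem mem_range_of_isAlgebraic {L : Type*} [Field L] [IsAlgClosed L] [Algebra k L]
    (φ : L →ₐ[k] K) {E : IntermediateField k K} (hE : E ≤ φ.fieldRange) {v : K}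
    (hv : IsAlgebraic E v) : ∃ w : L, φ w = v := by
  letI : Algebra L K := φ.toRingHom.toAlgebra
  have h1 : IsAlgebraic L v := by
    obtain ⟨p, hp0, hpv⟩ := hv
    have hc : ∀ j, ∃ a : L, φ a = ((p.coeff j : E) : K) := fun j => hE (p.coeff j).2
    choose a ha using hc
    let i : E →+* L := (AlgEquiv.ofInjectiveField φ).symm.toAlgHom.toRingHom.comp
      (IntermediateField.inclusion hE).toRingHom
    have hi : (algebraMap L K).comp i = algebraMap E K := by
      ext e
      change φ ((AlgEquiv.ofInjectiveField φ).symm (IntermediateField.inclusion hE e)) = e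
      have h2 := congrArg Subtype.val ((AlgEquiv.ofInjectiveField φ).apply_symm_apply
        (IntermediateField.inclusion hE e))
      exact h2
    refine ⟨p.map i, ?_, ?_⟩
    · exact (Polynomial.map_ne_zero_iff i.injective).2 hp0
    · rw [aeval_def, eval₂_map, hi]
      exact hpv
  have h2 : IntermediateField.adjoin L {v} = ⊥ := by
    haveI : Algebra.IsAlgebraic L (IntermediateField.adjoin L {v}) :=
      IntermediateField.isAlgebraic_adjoin (fun w hw => by
        rw [Set.mem_singleton_iff.1 hw]; exact h1.isIntegral)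
    exact IntermediateField.eq_bot_of_isAlgClosed_of_isAlgebraic _
  have h3 : v ∈ IntermediateField.adjoin L {v} := mem_adjoin_simple_self L v
  rw [h2, IntermediateField.mem_bot] at h3
  exact h3

section map

variable {L : Type*} [Field L] [Algebra k L] (φ : L →ₐ[k] K)

theorem map_mem_ac {A : IntermediateField k L} {w : L} :
    φ w ∈ ALG.ac (A.map φ) ↔ w ∈ ALG.ac A := by
  rw [ALG.mem_ac, ALG.mem_ac]
  exact isAlgebraic_ringHom_iff_of_comp_eq (A.equivMap φ) (g := φ) φ.toRingHom.injective
    (RingHom.ext fun a => rfl)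

theorem map_ac [IsAlgClosed L] (A : IntermediateField k L) :
    (ALG.ac A).map φ = ALG.ac (A.map φ) := by
  apply le_antisymm
  · rintro _ ⟨w, hw, rfl⟩
    exact (map_mem_ac φ).2 hw
  · intro v hv
    obtain ⟨w, rfl⟩ := mem_range_of_isAlgebraic φ (E := A.map φ) (by
      rintro _ ⟨a, _, rfl⟩
      exact ⟨a, rfl⟩) (ALG.mem_ac.1 hv)
    exact ⟨w, (map_mem_ac φ).1 hv, rfl⟩

theorem map_adjoin_range {ι : Type*} (t : ι → L) :
    (adjoin k (Set.range t)).map φ = adjoin k (Set.range (φ ∘ t)) := by
  rw [adjoin_map, Set.range_comp]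

theorem map_bracket [IsAlgClosed L] {r : ℕ} (t : Fin r → L) :
    (ALG.bracket (k := k) t).map φ = ALG.bracket (k := k) (φ ∘ t) := by
  rw [ALG.bracket_eq, ALG.bracket_eq, map_ac, map_adjoin_range]

/-- the fields `M_r^s` under an embedding of algebraically closed fields -/
theorem map_M [IsAlgClosed L] {m : ℕ} (z : Fin m → L) (r s : ℕ) :
    (ALG.M k z r s).map φ = ALG.M k (φ ∘ z) r s := by
  induction s using Nat.strong_induction_on with
  | _ s ih =>
    rcases s with _ | _ | s
    · exact map_adjoin_range φ z
    · exact map_adjoin_range φ z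
    · have h1 := ih (s + 1) (by omega)
      rw [ALG.M, ALG.M, IntermediateField.map_iSup]
      apply le_antisymm
      · refine iSup_le (fun t => ?_)
        rw [map_bracket]
        refine le_iSup (fun t : {t : Fin r → K // ∀ i, t i ∈ ALG.M k (φ ∘ z) r (s + 1)} =>
          ALG.bracket (k := k) t.1) ⟨φ ∘ t.1, fun i => ?_⟩
        rw [← h1]
        exact ⟨t.1 i, t.2 i, rfl⟩
      · refine iSup_le (fun t => ?_)
        have h2 : ∀ i, ∃ w ∈ ALG.M k z r (s + 1), φ w = t.1 i := by
          intro i
          have h3 : t.1 i ∈ (ALG.M k z r (s + 1)).map φ := h1.ge (t.2 i)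
          obtain ⟨w, hw, hwt⟩ := h3
          exact ⟨w, hw, hwt⟩
        choose w hw hwt using h2
        have h4 : t.1 = φ ∘ w := funext fun i => (hwt i).symm
        rw [h4, ← map_bracket]
        exact le_iSup (fun t : {t : Fin r → L // ∀ i, t i ∈ ALG.M k z r (s + 1)} =>
          (ALG.bracket (k := k) t.1).map φ) ⟨w, hw⟩

end map

/-- more variables -/
theorem M_mono_family {n m : ℕ} {X : Fin n → K} {x : Fin m → K}
    (h : ∀ j, x j ∈ adjoin k (Set.range X)) (r s : ℕ) : ALG.M k x r s ≤ ALG.M k X r s := by
  have h0 : adjoin k (Set.range x) ≤ adjoin k (Set.range X) := by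
    rw [adjoin_le_iff]
    rintro _ ⟨j, rfl⟩
    exact h j
  induction s using Nat.strong_induction_on with
  | _ s ih =>
    rcases s with _ | _ | s
    · exact h0
    · exact h0
    · rw [ALG.M]
      exact iSup_le (fun t => ALG.bracket_le_M r s t.1 (fun i => ih (s + 1) (by omega) (t.2 i)))

theorem M_le_bracket {m : ℕ} (x : Fin m → K) (r s : ℕ) :
    ALG.M k x r s ≤ ALG.bracket (k := k) x := by
  induction s using Nat.strong_induction_on with
  | _ s ih =>
    rcases s with _ | _ | s
    · rw [ALG.bracket_eq]; exact ALG.le_ac _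
    · rw [ALG.bracket_eq]; exact ALG.le_ac _
    · rw [ALG.M]
      refine iSup_le (fun t => ?_)
      rw [ALG.bracket_eq, ALG.bracket_eq]
      apply ALG.ac_le
      rw [adjoin_le_iff]
      rintro _ ⟨i, rfl⟩
      rw [← ALG.bracket_eq]
      exact ih (s + 1) (by omega) (t.2 i)

instance isAlgClosed_bracket [IsAlgClosed K] {m : ℕ} (x : Fin m → K) :
    IsAlgClosed (ALG.bracket (k := k) x) :=
  (algebraicClosure.isAlgClosure (adjoin k (Set.range x)) K).isAlgClosed

end Pool.Agent.H2.HER
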