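import Pool.Agent.H2.HER.VR3
import Pool.Agent.H45.CH.Lift

/-!
# HER PlaceG

Every place of an algebraically closed field `E` of characteristic zero with residue
characteristic `p` extends to a place of `K_n(E)` onto `K_n(k)` compatible with the `M_r^s`.
-/

set_option autoImplicit false
set_option linter.style.haveILetI false

namespace Pool.Agent.H2.HER

open IntermediateField Pool.Agent.H45.CH

/-- the residue field of an algebraically closed valued field -/
theorem exists_place_gen (p : ℕ) [Fact p.Prime] {E K : Type*} [Field E] [IsAlgClosed E]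
    [CharZero E] [Field K] [IsAlgClosed K] [Algebra E K] (A : ValuationSubring E)
    [CharP (IsLocalRing.ResidueField A) p] {n : ℕ} (x : Fin n → K)
    (hx : IsTranscendenceBasis E x) :
    ∃ (O : ValuationSubring K) (_ : Algebra (IsLocalRing.ResidueField A)
      (IsLocalRing.ResidueField O)) (y : Fin n → O),
      (∀ a : E, algebraMap E K a ∈ O ↔ a ∈ A) ∧
      (∀ (a : A) (b : O), (b : K) = algebraMap E K a → IsLocalRing.residue O b =
        algebraMap (IsLocalRing.ResidueField A) (IsLocalRing.ResidueField O)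
          (IsLocalRing.residue A a)) ∧
      IsAlgClosed (IsLocalRing.ResidueField A) ∧ IsAlgClosed (IsLocalRing.ResidueField O) ∧
      (∀ i, (y i : K) = x i) ∧
      IsTranscendenceBasis (IsLocalRing.ResidueField A) (fun i => IsLocalRing.residue O (y i)) ∧
      ∀ r s, 1 ≤ r → 1 ≤ s →
        (∀ w : O, (w : K) ∈ ALG.M E x r s → IsLocalRing.residue O w ∈
          ALG.M (IsLocalRing.ResidueField A) (fun i => IsLocalRing.residue O (y i)) r
            (2 * s - 1)) ∧
        (∀ z ∈ ALG.M (IsLocalRing.ResidueField A) (fun i => IsLocalRing.residue O (y i)) r s,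
          ∃ w : O, (w : K) ∈ ALG.M E x r s ∧ IsLocalRing.residue O w = z) := by
  obtain ⟨O, alg, y, hy, hc, h⟩ := exists_gauss A x hx
  haveI hA : IsAlgClosed (IsLocalRing.ResidueField A) := isAlgClosed_residueField A
  haveI hO : IsAlgClosed (IsLocalRing.ResidueField O) := isAlgClosed_residueField O
  haveI : CharP (IsLocalRing.ResidueField O) p := charP_of_injective_algebraMap
    (algebraMap (IsLocalRing.ResidueField A) (IsLocalRing.ResidueField O)).injective p
  have hyx : (fun i => (y i : K)) = x := funext hy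
  have hmem : ∀ a : E, algebraMap E K a ∈ O ↔ a ∈ A := by
    intro a
    constructor
    · intro ha
      by_contra hna
      have h0 : a ≠ 0 := by
        rintro rfl
        exact hna A.zero_mem
      have hinv : a⁻¹ ∈ A := (A.mem_or_inv_mem a).resolve_left hna
      obtain ⟨b, hb, hb'⟩ := hc ⟨a⁻¹, hinv⟩
      have h1 : IsLocalRing.residue A ⟨a⁻¹, hinv⟩ = 0 := by
        by_contra h2
        obtain ⟨u, hu⟩ := (IsLocalRing.residue_ne_zero_iff_isUnit _).1 h2
        have h3 : ((u⁻¹ : Aˣ) : A) * (⟨a⁻¹, hinv⟩ : A) = 1 := by rw [← hu]; exact u.inv_mul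
        have h4 : (((u⁻¹ : Aˣ) : A) : E) * a⁻¹ = 1 := congrArg Subtype.val h3
        have h5 : (((u⁻¹ : Aˣ) : A) : E) = a := by
          field_simp at h4
          exact h4
        exact hna (h5 ▸ ((u⁻¹ : Aˣ) : A).2)
      rw [h1, map_zero] at hb'
      have h6 : b * (⟨algebraMap E K a, ha⟩ : O) = 1 := by
        apply Subtype.ext
        change (b : K) * algebraMap E K a = 1
        rw [hb, ← map_mul, inv_mul_cancel₀ h0, map_one]
      have h7 := congrArg (IsLocalRing.residue O) h6
      rw [map_mul, hb', zero_mul, map_one] at h7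
      exact zero_ne_one h7
    · intro ha
      obtain ⟨b, hb, -⟩ := hc ⟨a, ha⟩
      rw [← hb]
      exact b.2
  refine ⟨O, alg, y, hmem, fun a b hb => ?_, hA, hO, hy, h.tb', fun r s hr hs => ⟨?_, ?_⟩⟩
  · obtain ⟨b', hb', hb''⟩ := hc a
    have : b = b' := Subtype.ext (hb.trans hb'.symm)
    rw [this, hb'']
  · intro w hw
    refine (main_step p h hr s hs).1 w ?_
    rwa [hyx]
  · intro z hz
    obtain ⟨w, hw, hw'⟩ := M_le_resF h r s hz
    exact ⟨w, by rwa [← hyx], hw'⟩

end Pool.Agent.H2.HER
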