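import Pool.Agent.H2.HER.Final

/-!
# HER Step

If all algebraic functions of `m` variables are superpositions of algebraic functions of `r`
variables, then all algebraic functions of `m + 1` variables are superpositions of algebraic
functions of `r + 1` variables.
-/

set_option autoImplicit false
set_option linter.style.haveILetI false

namespace Pool.Agent.H2.HER

open Polynomial IntermediateField

/-- one constant becomes a variable -/
theorem M_const_le {k K : Type*} [Field k] [Field K] [Algebra k K] {n m r : ℕ} (x : Fin n → K)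
    (X : Fin m → K) (y : K) (hX : ∀ j, X j ∈ MU k x (r + 1)) (hy : y ∈ MU k x (r + 1)) (s : ℕ)
    (z : K) (hz : z ∈ ALG.M (ALG.bracket (k := k) (fun _ : Fin 1 => y)) X r s) :
    z ∈ MU k x (r + 1) := by
  set k' := ALG.bracket (k := k) (fun _ : Fin 1 => y) with hk'
  have hr : 1 ≤ r + 1 := Nat.le_add_left 1 r
  have hk'M : k' ≤ MU k x (r + 1) := by
    refine le_trans ?_ (bracket_le_MU hr (fun _ : Fin (r + 1) => y) (fun _ => hy))
    rw [hk', ALG.bracket_eq, ALG.bracket_eq]
    apply ALG.ac_mono
    rw [adjoin_le_iff]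
    rintro _ ⟨_, rfl⟩
    exact subset_adjoin k _ ⟨0, rfl⟩
  have key : ∀ s, ALG.M k' X r s ≤ extendScalars hk'M := by
    intro s
    have h0 : adjoin k' (Set.range X) ≤ extendScalars hk'M := by
      rw [adjoin_le_iff]
      rintro _ ⟨j, rfl⟩
      exact hX j
    induction s using Nat.strong_induction_on with
    | _ s ih =>
      rcases s with _ | _ | s
      · exact h0
      · exact h0
      · rw [ALG.M]
        refine iSup_le (fun t => ?_)
        intro w hw
        rw [ALG.bracket_eq, ALG.mem_ac] at hw
        let t' : Fin (r + 1) → K := Fin.cons y t.1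
        have ht' : ∀ i, t' i ∈ MU k x (r + 1) := by
          intro i
          refine Fin.cases ?_ (fun j => ?_) i
          · exact hy
          · exact ih (s + 1) (by omega) (t.2 j)
        refine bracket_le_MU hr t' ht' ?_
        have hk't : k' ≤ ALG.bracket (k := k) t' := by
          rw [hk', ALG.bracket_eq, ALG.bracket_eq]
          apply ALG.ac_mono
          rw [adjoin_le_iff]
          rintro _ ⟨_, rfl⟩
          exact subset_adjoin k _ ⟨0, rfl⟩
        have hA : adjoin k' (Set.range t.1) ≤ extendScalars hk't := by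
          rw [adjoin_le_iff]
          rintro _ ⟨j, rfl⟩
          exact ALG.mem_bracket t' j.succ
        have h2 : IsAlgebraic (ALG.bracket (k := k) t') w :=
          IsAlgebraic.tower_top_of_subalgebra_le
            (A := ((adjoin k' (Set.range t.1)).restrictScalars k).toSubalgebra)
            (B := (ALG.bracket (k := k) t').toSubalgebra) hA hw
        have h3 : w ∈ ALG.ac (ALG.bracket (k := k) t') := ALG.mem_ac.2 h2
        rw [ALG.bracket_eq, ALG.ac_ac] at h3
        rw [ALG.bracket_eq]
        exact h3
  exact key s hz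

/-- the step -/
theorem step {k : Type*} [Field k] [IsAlgClosed k] {B : ℕ → k}
    (hB : AlgebraicIndependent (⊥ : Subfield k) B) {m r : ℕ} (hr : 1 ≤ r)
    (htop : MU k (xn k m) r = ⊤) : MU k (xn k (m + 1)) (r + 1) = ⊤ := by
  classical
  set x := xn k (m + 1) with hxdef
  have hx : IsTranscendenceBasis k x := basis_xn k (m + 1)
  let y : Kn k (m + 1) := x (Fin.last m)
  let X : Fin m → Kn k (m + 1) := fun j => x (Fin.castSucc j)
  set k' := ALG.bracket (k := k) (fun _ : Fin 1 => y) with hk'
  haveI : IsAlgClosed k' := isAlgClosed_bracket _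
  have hXb : IsTranscendenceBasis k' X := by
    refine basis_rest (fun _ : Fin 1 => y) X ?_ (fun z => ?_)
    · let e : Fin m ⊕ Fin 1 → Fin (m + 1) := Sum.elim Fin.castSucc (fun _ => Fin.last m)
      have he : Function.Injective e := by
        rintro (a | a) (b | b) h
        · exact congrArg Sum.inl (Fin.castSucc_injective m h)
        · exact absurd h (Fin.castSucc_lt_last a).ne
        · exact absurd h.symm (Fin.castSucc_lt_last b).ne
        · exact congrArg Sum.inr (Subsingleton.elim a b)
      have h2 := hx.1.comp e he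
      have h3 : x ∘ e = Sum.elim X (fun _ : Fin 1 => y) := by
        funext a
        rcases a with a | a <;> rfl
      rwa [h3] at h2
    · refine IsAlgebraic.tower_top_of_subalgebra_le (Algebra.adjoin_mono ?_)
        (hx.isAlgebraic.isAlgebraic z)
      rintro _ ⟨i, rfl⟩
      refine Fin.lastCases ?_ (fun j => ?_) i
      · exact Or.inr ⟨0, rfl⟩
      · exact Or.inl ⟨j, rfl⟩
  obtain ⟨t, _, ht⟩ := exists_infinite_basis hB
  letI : Algebra (⊥ : Subfield k) k' := ((algebraMap k k').comp
    (algebraMap (⊥ : Subfield k) k)).toAlgebra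
  haveI : @IsScalarTower (⊥ : Subfield k) k k' Algebra.toSMul Algebra.toSMul Algebra.toSMul :=
    IsScalarTower.of_algebraMap_eq (fun _ => rfl)
  letI : Algebra (⊥ : Subfield k) (Kn k (m + 1)) :=
    ((algebraMap k' (Kn k (m + 1))).comp (algebraMap (⊥ : Subfield k) k')).toAlgebra
  haveI : @IsScalarTower (⊥ : Subfield k) k' (Kn k (m + 1)) Algebra.toSMul Algebra.toSMul
      Algebra.toSMul := IsScalarTower.of_algebraMap_eq (fun _ => rfl)
  have h1 : MU k' X r = ⊤ :=
    up_inf (F := (⊥ : Subfield k)) (k := k) (k' := k') (K := Kn k (m + 1)) _ ht X hXb hr htop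
  rw [eq_top_iff]
  intro z _
  have h2 : z ∈ MU k' X r := by rw [h1]; exact mem_top
  obtain ⟨s, hs⟩ := (mem_MU hr).1 h2
  have hmem : ∀ i, x i ∈ MU k x (r + 1) := fun i =>
    M_le_MU x (r + 1) 1 (subset_adjoin k _ ⟨i, rfl⟩)
  exact M_const_le x X y (fun j => hmem _) (hmem _) (s + 1) z hs

/-- the set of `r` with `M_r(r+1) = K_{r+1}` is closed upwards -/
theorem up_closed {k : Type*} [Field k] [IsAlgClosed k] {B : ℕ → k}
    (hB : AlgebraicIndependent (⊥ : Subfield k) B) {r r' : ℕ} (hr : 1 ≤ r) (h : r ≤ r')
    (htop : MU k (xn k (r + 1)) r = ⊤) : MU k (xn k (r' + 1)) r' = ⊤ := by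
  induction r', h using Nat.le_induction with
  | base => exact htop
  | succ j hj ih => exact step hB (hr.trans hj) ih

end Pool.Agent.H2.HER
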