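import Pool.Agent.H15.CHL.ThrOne
import Pool.Agent.H15.CHL.PlaceAny
import Pool.Agent.H2.HER.PlaceG
import Pool.Agent.H15.CHL.Cmp

/-!
# HER Stmt

The statements on the fields `M_r^s` and their proofs.
-/

set_option autoImplicit false
set_option linter.style.haveILetI false

namespace Pool.Agent.H2.HER

open IntermediateField

universe u v w z

/-- Heredity: `M_r^s(n; k') ∩ K_m(k) = M_r^s(m; k)` for `k ≤ k'`, `m ≤ n`. -/
def Heredity : Prop :=
  ∀ (k : Type u) [Field k] [IsAlgClosed k] (k' : Type w) [Field k'] [IsAlgClosed k']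
   (K : Type v) [Field K] [IsAlgClosed K] [Algebra k k'] [Algebra k' K] [Algebra k K]
   [IsScalarTower k k' K] (n m : ℕ) (hmn : m ≤ n) (x : Fin n → K), IsTranscendenceBasis k' x →
   ∀ (r s : ℕ) (y : K),
     (y ∈ ALG.M k' x r s ∧ y ∈ ALG.bracket (k := k) (x ∘ Fin.castLE hmn)) ↔
       y ∈ ALG.M k (x ∘ Fin.castLE hmn) r s

/-- The truth of `M_r(n; k) = M_(r')(n; k)` does not depend on `n ≥ r, r'`. -/
def IndepOfN : Prop :=
  ∀ (k : Type u) [Field k] [IsAlgClosed k] (K : Type v) [Field K] [IsAlgClosed K] [Algebra k K]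
   (K' : Type z) [Field K'] [IsAlgClosed K'] [Algebra k K'] (n n' : ℕ) (x : Fin n → K)
   (x' : Fin n' → K'), IsTranscendenceBasis k x → IsTranscendenceBasis k x' →
   ∀ r r', 1 ≤ r → r ≤ r' → r' ≤ n → r' ≤ n' →
     (MU k x r = MU k x r' ↔ MU k x' r = MU k x' r')

/-- There are `c : ℕ → {1, 2, …, ∞}` with `c p ≤ c 0` and, for each `p`, functions `N` and `d` such
that, for every algebraically closed `k` of characteristic `p`: for `r ≥ 1` and every `n ≥ N r` one
has `M_r(n; k) = K_n(k)` iff `c p ≤ r`; for every `n ≥ 1` one has `M_r = M_n` for `c p ≤ r ≤ n`, and at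
most `min n (c p)` of `M_1, …, M_n` are distinct; if `k` has `d n` elements algebraically independent
over its prime field, then for `r < r' ≤ n` one has `M_r = M_(r')` iff `c p ≤ r`, and exactly
`min n (c p)` of them are distinct. -/
def Thresholds : Prop :=
  ∃ c : ℕ → ℕ∞, (∀ p, 1 ≤ c p) ∧ (∀ p, c p ≤ c 0) ∧
   ∀ p, (∃ N : ℕ → ℕ, ∀ (k : Type u) [Field k] [IsAlgClosed k] [CharP k p] (K : Type w) [Field K]
     [IsAlgClosed K] [Algebra k K] (r n : ℕ) (x : Fin n → K), 1 ≤ r → N r ≤ n →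
     IsTranscendenceBasis k x → (MU k x r = ⊤ ↔ c p ≤ r)) ∧
   ∃ d : ℕ → ℕ,
   ∀ (k : Type u) [Field k] [IsAlgClosed k] [CharP k p] (K : Type v) [Field K] [IsAlgClosed K]
     [Algebra k K] (n : ℕ) (x : Fin n → K), 1 ≤ n → IsTranscendenceBasis k x →
     (∀ r r', 1 ≤ r → r < r' → r' ≤ n → c p ≤ r → MU k x r = MU k x r') ∧
     {F | ∃ r, 1 ≤ r ∧ r ≤ n ∧ F = MU k x r}.encard ≤ min (n : ℕ∞) (c p) ∧
     ((∃ b : Fin (d n) → k, AlgebraicIndependent (⊥ : Subfield k) b) →
       (∀ r r', 1 ≤ r → r < r' → r' ≤ n → (MU k x r = MU k x r' ↔ c p ≤ r)) ∧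
       {F | ∃ r, 1 ≤ r ∧ r ≤ n ∧ F = MU k x r}.encard = min (n : ℕ∞) (c p))

/-- Inclusions among the `M_r^s` for `(n, k)` hold for `(m, k')` if `m ≤ n`, the characteristics are
equal and `k` has infinite transcendence degree over its prime field or `k'` embeds into `k`; there
are at least as many distinct `M_r^s` for `(n, k)`. -/
def ConstDescent : Prop :=
  ∀ (p : ℕ) (k : Type u) [Field k] [IsAlgClosed k] [CharP k p] (K : Type v) [Field K]
   [IsAlgClosed K] [Algebra k K] (k' : Type w) [Field k'] [IsAlgClosed k'] [CharP k' p]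
   (K' : Type z) [Field K'] [IsAlgClosed K'] [Algebra k' K'] (n m : ℕ), m ≤ n →
   ∀ (x : Fin n → K), IsTranscendenceBasis k x →
   ∀ (x' : Fin m → K'), IsTranscendenceBasis k' x' →
   ((∃ B : ℕ → k, AlgebraicIndependent (⊥ : Subfield k) B) ∨ Nonempty (k' →+* k)) →
   (∀ r s r' s', ALG.M k x r s ≤ ALG.M k x r' s' → ALG.M k' x' r s ≤ ALG.M k' x' r' s') ∧
   {F | ∃ r s, 1 ≤ r ∧ r ≤ m ∧ 1 ≤ s ∧ F = ALG.M k' x' r s}.encard ≤
     {F | ∃ r s, 1 ≤ r ∧ r ≤ n ∧ 1 ≤ s ∧ F = ALG.M k x r s}.encard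

/-- If `C` has characteristic zero and infinite transcendence degree over its prime field, `k` has
characteristic `p > 0` and `m ≤ n`, then `M_r^s ⊆ M_(r')^(s')` for `(n, C)` implies
`M_r^s ⊆ M_(r')^(2s'-1)` for `(m, k)`, and finiteness of the set of the `M_r^s` for `(n, C)` implies
finiteness for `(m, k)`. -/
def CharDescent : Prop :=
  ∀ (p : ℕ), p.Prime → ∀ (C : Type w) [Field C] [IsAlgClosed C] [CharP C 0] (K : Type v)
   [Field K] [IsAlgClosed K] [Algebra C K] (k : Type u) [Field k] [IsAlgClosed k] [CharP k p]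
   (K' : Type z) [Field K'] [IsAlgClosed K'] [Algebra k K'] (n m : ℕ), m ≤ n →
   ∀ (x : Fin n → K), IsTranscendenceBasis C x →
   ∀ (x' : Fin m → K'), IsTranscendenceBasis k x' →
   (∃ B : ℕ → C, AlgebraicIndependent (⊥ : Subfield C) B) →
   (∀ r s r' s', 1 ≤ r' → 1 ≤ s' → ALG.M C x r s ≤ ALG.M C x r' s' →
     ALG.M k x' r s ≤ ALG.M k x' r' (2 * s' - 1)) ∧
   ({F | ∃ r s, 1 ≤ r ∧ r ≤ n ∧ 1 ≤ s ∧ F = ALG.M C x r s}.Finite →
     {F | ∃ r s, 1 ≤ r ∧ r ≤ m ∧ 1 ≤ s ∧ F = ALG.M k x' r s}.Finite)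

/-- Let `A` be a valuation ring of an algebraically closed field `E` (of any characteristic) with
residue field `k` and `K = K_n(E)`.  There is a valuation ring `O` of `K` with `O ∩ E = A`, residue map
`ρ` and residue field `K_n(k)`, such that `ρ` extends that of `A`, `ρ(x_i) = x_i` and
`M_r^s(n; k) ⊆ ρ(M_r^s(n; E) ∩ O) ⊆ M_r^(2s-1)(n; k)` for all `r, s ≥ 1`; if `k` has characteristic zero,
then `ρ(M_r^s(n; E) ∩ O) = M_r^s(n; k)`. -/
def Places : Prop :=
  ∀ (E : Type w) [Field E] [IsAlgClosed E] (K : Type z) [Field K] [IsAlgClosed K] [Algebra E K]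
   (A : ValuationSubring E) (n : ℕ) (x : Fin n → K), IsTranscendenceBasis E x →
   ∃ (O : ValuationSubring K) (_ : Algebra (IsLocalRing.ResidueField A)
     (IsLocalRing.ResidueField O)) (y : Fin n → O),
     (∀ a : E, algebraMap E K a ∈ O ↔ a ∈ A) ∧
     (∀ (a : A) (b : O), (b : K) = algebraMap E K a → IsLocalRing.residue O b =
       algebraMap (IsLocalRing.ResidueField A) (IsLocalRing.ResidueField O)
         (IsLocalRing.residue A a)) ∧
     IsAlgClosed (IsLocalRing.ResidueField A) ∧ IsAlgClosed (IsLocalRing.ResidueField O) ∧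
     (∀ i, (y i : K) = x i) ∧
     IsTranscendenceBasis (IsLocalRing.ResidueField A) (fun i => IsLocalRing.residue O (y i)) ∧
     ∀ r s, 1 ≤ r → 1 ≤ s →
       (∀ u : O, (u : K) ∈ ALG.M E x r s → IsLocalRing.residue O u ∈
         ALG.M (IsLocalRing.ResidueField A) (fun i => IsLocalRing.residue O (y i)) r
           (2 * s - 1)) ∧
       (CharZero (IsLocalRing.ResidueField A) → ∀ u : O, (u : K) ∈ ALG.M E x r s →
         IsLocalRing.residue O u ∈
           ALG.M (IsLocalRing.ResidueField A) (fun i => IsLocalRing.residue O (y i)) r s) ∧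
       (∀ t ∈ ALG.M (IsLocalRing.ResidueField A) (fun i => IsLocalRing.residue O (y i)) r s,
         ∃ u : O, (u : K) ∈ ALG.M E x r s ∧ IsLocalRing.residue O u = t)

theorem heredity_holds : Heredity.{u, v, w} := by
  intro k _ _ k' _ _ K _ _ _ _ _ _ n m hmn x hx r s y
  exact heredity_gen x hx hmn r s y

theorem indepOfN_holds : IndepOfN.{u, v, z} := by
  intro k _ _ K _ _ _ K' _ _ _ n n' x x' hx hx' r r' hr hrr' hn hn'
  rw [MU_eq_iff x hx hr hrr' hn, MU_eq_iff x' hx' hr hrr' hn']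

theorem thresholds_holds : Thresholds.{u, v, w} := Pool.Agent.H15.CHL.threshold_one

theorem constDescent_holds : ConstDescent.{u, v, w, z} := by
  intro p k _ _ _ K _ _ _ k' _ _ _ K' _ _ _ n m hmn x hx x' hx' h
  exact q2 p hmn x hx x' hx' h

theorem charDescent_holds : CharDescent.{u, v, w, z} := by
  intro p hp C _ _ _ K _ _ _ k _ _ _ K' _ _ _ n m hmn x hx x' hx' hB
  exact ⟨fun r s r' s' hr' hs' hle => Pool.Agent.H15.CHL.incl_compare p hp hmn x hx x' hx' hB
    hr' hs' hle, fun hfin => Pool.Agent.H15.CHL.finite_compare p hp hmn x hx x' hx' hB hfin⟩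

theorem places_holds : Places.{w, z} := by
  intro E _ _ K _ _ _ A n x hx
  exact Pool.Agent.H15.CHL.exists_place_any A x hx

end Pool.Agent.H2.HER
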