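import Pool.Agent.H2.HER.Map

/-!
# HER Thm1

Heredity: `M_r^s(n; k') ∩ K_m(k) = M_r^s(m; k)`.
-/

set_option autoImplicit false
set_option linter.style.haveILetI false

namespace Pool.Agent.H2.HER

open Polynomial IntermediateField

section

variable {k K : Type*} [Field k] [Field K] [Algebra k K]

open IntermediateField.algebraAdjoinAdjoin in
/-- independence over the algebraic closure -/
theorem indep_rest {ι : Type*} {m : ℕ} (x' : Fin m → K) (y : ι → K)
    (h1 : AlgebraicIndependent k (Sum.elim y x')) :
    AlgebraicIndependent (ALG.bracket (k := k) x') y := by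
  classical
  have h2 : AlgebraicIndependent (Algebra.adjoin k (Set.range x')) y :=
    (AlgebraicIndependent.sumElim_iff.1 h1).2
  have h3 : AlgebraicIndependent (adjoin k (Set.range x')) y := by
    haveI : Algebra.IsAlgebraic (Algebra.adjoin k (Set.range x')) (adjoin k (Set.range x')) :=
      IsLocalization.isAlgebraic _ (nonZeroDivisors _)
    exact h2.extendScalars _
  exact AlgebraicIndependent.algebraicClosure h3

/-- the remaining elements of a transcendence basis are a transcendence basis over the algebraic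
closure of the first ones -/
theorem basis_rest {ι : Type*} {m : ℕ} (x' : Fin m → K) (y : ι → K)
    (h1 : AlgebraicIndependent k (Sum.elim y x'))
    (halg : ∀ z : K, IsAlgebraic (Algebra.adjoin k (Set.range y ∪ Set.range x')) z) :
    IsTranscendenceBasis (ALG.bracket (k := k) x') y := by
  classical
  have h4 : AlgebraicIndependent (ALG.bracket (k := k) x') y := indep_rest x' y h1
  refine (h4.isTranscendenceBasis_iff_isAlgebraic).2 ⟨fun z => ?_⟩
  have hle : Algebra.adjoin k (Set.range y ∪ Set.range x') ≤
      (Algebra.adjoin (ALG.bracket (k := k) x') (Set.range y)).restrictScalars k := by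
    rw [Algebra.adjoin_le_iff]
    rintro _ (⟨i, rfl⟩ | ⟨i, rfl⟩)
    · exact Algebra.subset_adjoin ⟨i, rfl⟩
    · have h6 : x' i ∈ ALG.bracket (k := k) x' := ALG.mem_bracket x' i
      exact (Algebra.adjoin (ALG.bracket (k := k) x') (Set.range y)).algebraMap_mem ⟨x' i, h6⟩
  exact IsAlgebraic.tower_top_of_subalgebra_le
    (A := Algebra.adjoin k (Set.range y ∪ Set.range x'))
    (B := (Algebra.adjoin (ALG.bracket (k := k) x') (Set.range y)).restrictScalars k) hle (halg z)

end

section

variable {k k' K : Type*} [Field k] [Field k'] [Field K] [Algebra k k'] [Algebra k' K]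
  [Algebra k K] [IsScalarTower k k' K]

/-- enlarging the constants -/
theorem ac_le_ac_const {E : IntermediateField k K} {E' : IntermediateField k' K}
    (h : ∀ z ∈ E, z ∈ E') {z : K} (hz : z ∈ ALG.ac E) : z ∈ ALG.ac E' := by
  rw [ALG.mem_ac] at hz ⊢
  exact IsAlgebraic.tower_top_of_subalgebra_le (A := E.toSubalgebra)
    (B := (E'.restrictScalars k).toSubalgebra) h hz

/-- enlarging the constants and the family of variables -/
theorem M_mono_const {n m : ℕ} {X : Fin n → K} {x : Fin m → K}
    (h : ∀ j, x j ∈ adjoin k' (Set.range X)) (r s : ℕ) {z : K} (hz : z ∈ ALG.M k x r s) :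
    z ∈ ALG.M k' X r s := by
  have key : ∀ s, ALG.M k x r s ≤ (ALG.M k' X r s).restrictScalars k := by
    have h0 : adjoin k (Set.range x) ≤ (adjoin k' (Set.range X)).restrictScalars k := by
      rw [adjoin_le_iff]
      rintro _ ⟨j, rfl⟩
      exact h j
    intro s
    induction s using Nat.strong_induction_on with
    | _ s ih =>
      rcases s with _ | _ | s
      · exact h0
      · exact h0
      · rw [ALG.M]
        refine iSup_le (fun t => ?_)
        intro w hw
        have h1 : w ∈ ALG.bracket (k := k') t.1 := by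
          rw [ALG.bracket_eq] at hw ⊢
          refine ac_le_ac_const (k := k) (k' := k') (fun v hv => ?_) hw
          have h2 : adjoin k (Set.range t.1) ≤
              (adjoin k' (Set.range t.1)).restrictScalars k := by
            rw [adjoin_le_iff]
            exact subset_adjoin k' _
          exact h2 hv
        exact ALG.bracket_le_M r s t.1 (fun i => ih (s + 1) (by omega) (t.2 i)) h1
  exact key s hz

/-- HEREDITY -/
theorem heredity_gen [IsAlgClosed k] [IsAlgClosed K] {n m : ℕ} (x : Fin n → K)
    (hx : IsTranscendenceBasis k' x) (hmn : m ≤ n) (r s : ℕ) (u : K) :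
    (u ∈ ALG.M k' x r s ∧ u ∈ ALG.bracket (k := k) (x ∘ Fin.castLE hmn)) ↔
      u ∈ ALG.M k (x ∘ Fin.castLE hmn) r s := by
  classical
  constructor
  · rintro ⟨hu1, hu2⟩
    set xm : Fin m → K := x ∘ Fin.castLE hmn with hxm
    obtain ⟨J, c, hc⟩ := exists_isTranscendenceBasis' k k'
    have hZ : IsTranscendenceBasis k (Sum.elim x (algebraMap k' K ∘ c)) := hc.sumElim_comp hx
    let y : Fin (n - m) ⊕ J → K :=
      Sum.elim (fun j => x ⟨m + j, by omega⟩) (algebraMap k' K ∘ c)
    let e : (Fin (n - m) ⊕ J) ⊕ Fin m → Fin n ⊕ J :=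
      Sum.elim (Sum.elim (fun j => Sum.inl ⟨m + j, by omega⟩) Sum.inr)
        (fun i => Sum.inl (Fin.castLE hmn i))
    have he : Function.Injective e := by
      rintro ((a | a) | a) ((b | b) | b) h
      · simp only [e, Sum.elim_inl, Sum.inl.injEq, Fin.mk.injEq] at h
        exact congrArg Sum.inl (congrArg Sum.inl (Fin.ext (by omega)))
      · simp [e] at h
      · simp only [e, Sum.elim_inl, Sum.elim_inr, Sum.inl.injEq, Fin.ext_iff,
          Fin.val_castLE] at h
        have := b.2
        omega
      · simp [e] at h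
      · simp only [e, Sum.elim_inl, Sum.elim_inr, Sum.inr.injEq] at h
        rw [h]
      · simp [e] at h
      · simp only [e, Sum.elim_inl, Sum.elim_inr, Sum.inl.injEq, Fin.ext_iff,
          Fin.val_castLE] at h
        have := a.2
        omega
      · simp [e] at h
      · simp only [e, Sum.elim_inr, Sum.inl.injEq, Fin.ext_iff, Fin.val_castLE] at h
        exact congrArg Sum.inr (Fin.ext h)
    have h1 : AlgebraicIndependent k (Sum.elim y xm) := by
      have h2 := hZ.1.comp e he
      have h3 : Sum.elim x (algebraMap k' K ∘ c) ∘ e = Sum.elim y xm := by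
        funext a
        rcases a with (a | a) | a <;> rfl
      rwa [h3] at h2
    have hsub : Set.range (Sum.elim x (algebraMap k' K ∘ c)) ⊆ Set.range y ∪ Set.range xm := by
      rintro _ ⟨i | j, rfl⟩
      · by_cases hi : (i : ℕ) < m
        · exact Or.inr ⟨⟨i, hi⟩, rfl⟩
        · refine Or.inl ⟨Sum.inl ⟨i - m, by omega⟩, ?_⟩
          simp only [y, Sum.elim_inl]
          congr 1
          exact Fin.ext (by simp only; omega)
      · exact Or.inl ⟨Sum.inr j, rfl⟩
    have halg : ∀ z : K, IsAlgebraic (Algebra.adjoin k (Set.range y ∪ Set.range xm)) z := fun z =>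
      IsAlgebraic.tower_top_of_subalgebra_le (Algebra.adjoin_mono hsub)
        (hZ.isAlgebraic.isAlgebraic z)
    set V := ALG.bracket (k := k) xm with hV
    haveI : IsAlgClosed V := isAlgClosed_bracket _
    let x' : Fin m → V := fun j => ⟨xm j, ALG.mem_bracket _ j⟩
    have hk' : ∀ a : k', algebraMap k' K a ∈ ALG.ac (adjoin k (Set.range y)) := by
      intro a
      have h2 : a ∈ ALG.ac (adjoin k (Set.range c)) := by
        haveI := hc.isAlgebraic_field
        exact ALG.mem_ac.2 (Algebra.IsAlgebraic.isAlgebraic a)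
      have h3 := (map_mem_ac (IsScalarTower.toAlgHom k k' K)).2 h2
      rw [map_adjoin_range] at h3
      refine ALG.ac_mono ?_ h3
      rw [adjoin_le_iff]
      rintro _ ⟨j, rfl⟩
      exact subset_adjoin k _ ⟨Sum.inr j, rfl⟩
    have h4 := hered (k := k) (k' := k') (V := V) (K := K) (X := x) (x := x')
      (basis_rest xm y h1 halg) hk' (by
        intro i
        by_cases hi : (i : ℕ) < m
        · exact Or.inl ⟨⟨i, hi⟩, rfl⟩
        · refine Or.inr ⟨Sum.inl ⟨i - m, by omega⟩, ?_⟩
          simp only [y, Sum.elim_inl]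
          congr 1
          exact Fin.ext (by simp only; omega)) r s ⟨u, hu2⟩ hu1
    have h5 := map_M V.val x' r s
    have h6 : u ∈ (ALG.M k x' r s).map V.val := ⟨⟨u, hu2⟩, h4, rfl⟩
    rw [h5] at h6
    exact h6
  · intro hu
    exact ⟨M_mono_const (X := x) (x := x ∘ Fin.castLE hmn)
      (fun j => subset_adjoin k' _ ⟨Fin.castLE hmn j, rfl⟩) r s hu, M_le_bracket _ r s hu⟩

end

theorem heredity {k K : Type*} [Field k] [Field K] [Algebra k K] [IsAlgClosed k] [IsAlgClosed K]
    {n m : ℕ} (x : Fin n → K) (hx : IsTranscendenceBasis k x) (hmn : m ≤ n) (r s : ℕ) :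
    ALG.M k x r s ⊓ ALG.bracket (k := k) (x ∘ Fin.castLE hmn) =
      ALG.M k (x ∘ Fin.castLE hmn) r s := by
  ext u
  exact heredity_gen (k := k) (k' := k) x hx hmn r s u

end Pool.Agent.H2.HER
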