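import Pool.Agent.H2.HER.Thm1

/-!
# HER Thm2

The fields `M_r` and the criterion for `M_r(n) = M_(r+1)(n)`.
-/

set_option autoImplicit false
set_option linter.style.haveILetI false

namespace Pool.Agent.H2.HER

open Polynomial IntermediateField

/-- the field `M_r` generated by all `M_r^s` (their union, for `r ≥ 1`) -/
noncomputable def MU (k : Type*) [Field k] {K : Type*} [Field K] [Algebra k K] {n : ℕ}
    (x : Fin n → K) (r : ℕ) : IntermediateField k K := ⨆ s : ℕ, ALG.M k x r s

variable {k K : Type*} [Field k] [Field K] [Algebra k K]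

theorem M_succ {n : ℕ} (x : Fin n → K) {r : ℕ} (hr : 1 ≤ r) (s : ℕ) :
    ALG.M k x r s ≤ ALG.M k x r (s + 1) := by
  induction s with
  | zero => exact le_rfl
  | succ s ih =>
    rcases s with _ | s
    · exact ALG.F_le_M r hr
    · rw [ALG.M]
      exact iSup_le (fun t => ALG.bracket_le_M r (s + 1) t.1 (fun i => ih (t.2 i)))

theorem M_mono {n : ℕ} (x : Fin n → K) {r : ℕ} (hr : 1 ≤ r) :
    Monotone (fun s => ALG.M k x r s) := monotone_nat_of_le_succ (M_succ x hr)

theorem mem_MU {n : ℕ} {x : Fin n → K} {r : ℕ} (hr : 1 ≤ r) {z : K} :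
    z ∈ MU k x r ↔ ∃ s, z ∈ ALG.M k x r (s + 1) := by
  constructor
  · intro h
    rw [MU, ← SetLike.mem_coe, coe_iSup_of_directed (M_mono x hr).directed_le, Set.mem_iUnion] at h
    obtain ⟨s, hs⟩ := h
    exact ⟨s, M_succ x hr s hs⟩
  · rintro ⟨s, hs⟩
    exact (le_iSup (fun s => ALG.M k x r s) (s + 1)) hs

theorem M_le_MU {n : ℕ} (x : Fin n → K) (r s : ℕ) : ALG.M k x r s ≤ MU k x r :=
  le_iSup (fun s => ALG.M k x r s) s

/-- `M_r` is closed under algebraic functions of `r` variables -/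
theorem bracket_le_MU {n : ℕ} {x : Fin n → K} {r : ℕ} (hr : 1 ≤ r) (t : Fin r → K)
    (ht : ∀ i, t i ∈ MU k x r) : ALG.bracket (k := k) t ≤ MU k x r := by
  choose s hs using fun i => (mem_MU hr).1 (ht i)
  refine (ALG.bracket_le_M r (Finset.univ.sup s) t (fun i => ?_)).trans (M_le_MU x r _)
  exact M_mono x hr (Nat.succ_le_succ (Finset.le_sup (Finset.mem_univ i))) (hs i)

/-- substitution -/
theorem M_le_of_mem {n m : ℕ} {x : Fin n → K} {r : ℕ} (hr : 1 ≤ r) (t : Fin m → K)
    (ht : ∀ i, t i ∈ MU k x r) (s : ℕ) : ALG.M k t r s ≤ MU k x r := by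
  have h0 : adjoin k (Set.range t) ≤ MU k x r := by
    rw [adjoin_le_iff]
    rintro _ ⟨i, rfl⟩
    exact ht i
  induction s using Nat.strong_induction_on with
  | _ s ih =>
    rcases s with _ | _ | s
    · exact h0
    · exact h0
    · rw [ALG.M]
      exact iSup_le (fun t' => bracket_le_MU hr t'.1 (fun i => ih (s + 1) (by omega) (t'.2 i)))

/-- more variables in the outer functions -/
theorem M_le_M_succ {n : ℕ} (x : Fin n → K) {r : ℕ} (hr : 1 ≤ r) (s : ℕ) :
    ALG.M k x r s ≤ ALG.M k x (r + 1) s := by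
  induction s using Nat.strong_induction_on with
  | _ s ih =>
    rcases s with _ | _ | s
    · exact le_rfl
    · exact le_rfl
    · rw [ALG.M]
      refine iSup_le (fun t => ?_)
      let t' : Fin (r + 1) → K := Fin.snoc t.1 (t.1 ⟨0, hr⟩)
      have h1 : ∀ i, t' i ∈ ALG.M k x (r + 1) (s + 1) := by
        intro i
        refine Fin.lastCases ?_ (fun j => ?_) i
        · simp only [t', Fin.snoc_last]
          exact ih (s + 1) (by omega) (t.2 _)
        · simp only [t', Fin.snoc_castSucc]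
          exact ih (s + 1) (by omega) (t.2 _)
      refine le_trans ?_ (ALG.bracket_le_M (r + 1) s t' h1)
      rw [ALG.bracket_eq, ALG.bracket_eq]
      apply ALG.ac_mono
      rw [adjoin_le_iff]
      rintro _ ⟨j, rfl⟩
      exact subset_adjoin k _ ⟨Fin.castSucc j, by simp [t']⟩

theorem MU_le_succ {n : ℕ} (x : Fin n → K) {r : ℕ} (hr : 1 ≤ r) :
    MU k x r ≤ MU k x (r + 1) :=
  iSup_mono (fun s => M_le_M_succ x hr s)

/-- dependent elements -/
theorem bracket_le_of_dependent {r : ℕ} (t : Fin (r + 1) → K) (ht : ¬ AlgebraicIndependent k t) :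
    ∃ i : Fin (r + 1), ALG.bracket (k := k) t ≤
      ALG.bracket (k := k) (fun j => t (i.succAbove j)) := by
  by_contra hcon
  push Not at hcon
  apply ht
  refine algebraicIndependent_of_finite_type' (algebraMap k K).injective (fun T _ _ i hi => ?_)
  intro halg
  apply hcon i
  rw [ALG.bracket_eq, ALG.bracket_eq]
  apply ALG.ac_le
  rw [adjoin_le_iff]
  rintro _ ⟨j, rfl⟩
  have hsub : ∀ j, j ≠ i → t j ∈ adjoin k (Set.range fun j => t (i.succAbove j)) := by
    intro j hj
    obtain ⟨j', rfl⟩ := Fin.exists_succAbove_eq hj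
    exact subset_adjoin k _ ⟨j', rfl⟩
  by_cases hj : j = i
  · subst hj
    rw [SetLike.mem_coe, ALG.mem_ac]
    refine IsAlgebraic.tower_top_of_subalgebra_le (A := Algebra.adjoin k (t '' T))
      (B := (adjoin k (Set.range fun j' => t (j.succAbove j'))).toSubalgebra) ?_ halg
    rw [Algebra.adjoin_le_iff]
    rintro _ ⟨a, ha, rfl⟩
    exact hsub a (fun h => hi (h ▸ ha))
  · exact ALG.le_ac _ (hsub j hj)

/-- the criterion -/
theorem MU_eq_succ_iff [IsAlgClosed k] [IsAlgClosed K] {n : ℕ} (x : Fin n → K)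
    (hx : IsTranscendenceBasis k x) {r : ℕ} (hr : 1 ≤ r) (hrn : r + 1 ≤ n) {L : Type*} [Field L]
    [IsAlgClosed L] [Algebra k L] (z : Fin (r + 1) → L) (hz : IsTranscendenceBasis k z) :
    MU k x r = MU k x (r + 1) ↔ MU k z r = ⊤ := by
  have hbz : ALG.bracket (k := k) z = ⊤ := by
    rw [ALG.bracket_eq]; exact ALG.ac_top_of_basis hz
  constructor
  · intro h
    obtain ⟨φ, hφ⟩ := exists_hom hz (hx.1.comp (Fin.castLE hrn) (Fin.castLE_injective hrn))
    have hφ' : φ ∘ z = x ∘ Fin.castLE hrn := funext hφ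
    rw [eq_top_iff]
    intro w _
    have h1 : φ w ∈ ALG.bracket (k := k) (x ∘ Fin.castLE hrn) := by
      rw [← hφ', ← map_bracket, hbz]
      exact ⟨w, mem_top, rfl⟩
    have h2 : φ w ∈ MU k x (r + 1) := by
      refine (M_le_MU x (r + 1) 2) (ALG.bracket_le_M (r + 1) 0 _ (fun i => ?_) h1)
      exact subset_adjoin k _ ⟨_, rfl⟩
    rw [← h] at h2
    obtain ⟨s, hs⟩ := (mem_MU hr).1 h2
    have h3 : φ w ∈ ALG.M k (x ∘ Fin.castLE hrn) r (s + 1) := by
      rw [← heredity x hx hrn]
      exact ⟨hs, h1⟩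
    rw [← hφ', ← map_M] at h3
    obtain ⟨w', hw', hww⟩ := h3
    have h4 : w' = w := φ.toRingHom.injective hww
    rw [← h4]
    exact M_le_MU z r (s + 1) hw'
  · intro h
    apply le_antisymm (MU_le_succ x hr)
    refine iSup_le (fun s => ?_)
    induction s using Nat.strong_induction_on with
    | _ s ih =>
      rcases s with _ | _ | s
      · exact M_le_MU x r 0
      · exact M_le_MU x r 1
      · rw [ALG.M]
        refine iSup_le (fun t => ?_)
        have ht : ∀ i, t.1 i ∈ MU k x r := fun i => ih (s + 1) (by omega) (t.2 i)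
        by_cases hind : AlgebraicIndependent k t.1
        · obtain ⟨φ, hφ⟩ := exists_hom hz hind
          have hφ' : φ ∘ z = t.1 := funext hφ
          rw [← hφ', ← map_bracket, hbz, ← h, MU, IntermediateField.map_iSup]
          refine iSup_le (fun s' => ?_)
          rw [map_M, hφ']
          exact M_le_of_mem hr t.1 ht s'
        · obtain ⟨i, hi⟩ := bracket_le_of_dependent t.1 hind
          exact hi.trans (bracket_le_MU hr _ (fun j => ht _))

end Pool.Agent.H2.HER
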