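import Pool.Agent.H2.HER.Thm2

/-!
# HER Thm3

The standard model `K_n`, the number of distinct fields.
-/

set_option autoImplicit false
set_option linter.style.haveILetI false

namespace Pool.Agent.H2.HER

open Polynomial IntermediateField

/-- `K_n`: the algebraic closure of the rational function field in `n` variables over `k` -/
abbrev Kn (k : Type*) [Field k] (n : ℕ) := AlgebraicClosure (FractionRing (MvPolynomial (Fin n) k))

/-- the variables `x_1, …, x_n` in `K_n` -/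
noncomputable def xn (k : Type*) [Field k] (n : ℕ) : Fin n → Kn k n := fun i =>
  algebraMap (FractionRing (MvPolynomial (Fin n) k)) (Kn k n)
    (algebraMap (MvPolynomial (Fin n) k) (FractionRing (MvPolynomial (Fin n) k))
      (MvPolynomial.X i))

theorem basis_xn (k : Type*) [Field k] (n : ℕ) : IsTranscendenceBasis k (xn k n) := by
  haveI : Algebra.IsAlgebraic (MvPolynomial (Fin n) k) (FractionRing (MvPolynomial (Fin n) k)) :=
    IsLocalization.isAlgebraic _ (nonZeroDivisors _)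
  have h1 : IsTranscendenceBasis k (algebraMap (MvPolynomial (Fin n) k)
      (FractionRing (MvPolynomial (Fin n) k)) ∘ MvPolynomial.X) :=
    (IsTranscendenceBasis.mvPolynomial (Fin n) k).algebraMap_comp
  exact h1.algebraMap_comp (A := Kn k n)

variable {k K : Type*} [Field k] [Field K] [Algebra k K]

theorem MU_self_top [IsAlgClosed K] {n : ℕ} {x : Fin n → K} (hx : IsTranscendenceBasis k x) :
    MU k x n = ⊤ := by
  rw [eq_top_iff]
  have h1 : ALG.bracket (k := k) x ≤ ALG.M k x n 2 :=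
    ALG.bracket_le_M n 0 x (fun i => subset_adjoin k _ ⟨i, rfl⟩)
  rw [ALG.bracket_eq, ALG.ac_top_of_basis hx] at h1
  exact h1.trans (M_le_MU x n 2)

theorem MU_mono {n : ℕ} (x : Fin n → K) {r r' : ℕ} (hr : 1 ≤ r) (h : r ≤ r') :
    MU k x r ≤ MU k x r' := by
  induction r', h using Nat.le_induction with
  | base => exact le_rfl
  | succ j hj ih => exact ih.trans (MU_le_succ x (hr.trans hj))

/-- a chain is constant iff all steps are trivial -/
theorem MU_eq_iff_steps {n : ℕ} (x : Fin n → K) {r r' : ℕ} (hr : 1 ≤ r) (h : r ≤ r') :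
    MU k x r = MU k x r' ↔ ∀ j, r ≤ j → j < r' → MU k x j = MU k x (j + 1) := by
  constructor
  · intro h1 j hj hj'
    apply le_antisymm (MU_mono x (hr.trans hj) (Nat.le_succ j))
    exact (MU_mono x (by omega) hj').trans (h1.ge.trans (MU_mono x hr hj))
  · intro h1
    induction r', h using Nat.le_induction with
    | base => rfl
    | succ j hj ih =>
      rw [ih (fun i hi hi' => h1 i hi (by omega)), h1 j hj (by omega)]

/-- the criterion for `M_r(n) = M_r'(n)` does not depend on `n` -/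
theorem MU_eq_iff [IsAlgClosed k] [IsAlgClosed K] {n : ℕ} (x : Fin n → K)
    (hx : IsTranscendenceBasis k x) {r r' : ℕ} (hr : 1 ≤ r) (h : r ≤ r') (hn : r' ≤ n) :
    MU k x r = MU k x r' ↔ MU k (xn k r') r = ⊤ := by
  rw [← MU_self_top (basis_xn k r'), MU_eq_iff_steps x hr h, MU_eq_iff_steps (xn k r') hr h]
  constructor
  · intro h1 j hj hj'
    exact (MU_eq_succ_iff (xn k r') (basis_xn k r') (by omega) hj' _ (basis_xn k (j + 1))).2
      ((MU_eq_succ_iff x hx (by omega) (by omega) _ (basis_xn k (j + 1))).1 (h1 j hj hj'))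
  · intro h1 j hj hj'
    exact (MU_eq_succ_iff x hx (by omega) (by omega) _ (basis_xn k (j + 1))).2
      ((MU_eq_succ_iff (xn k r') (basis_xn k r') (by omega) hj' _ (basis_xn k (j + 1))).1
        (h1 j hj hj'))

/-- the number of values of a monotone sequence -/
theorem card_values {α : Type*} [PartialOrder α] (f : ℕ → α)
    (hf : ∀ r, 1 ≤ r → f r ≤ f (r + 1)) (n : ℕ) (hn : 1 ≤ n) :
    {a | ∃ r, 1 ≤ r ∧ r ≤ n ∧ a = f r}.ncard = 1 + {r | 1 ≤ r ∧ r < n ∧ f r ≠ f (r + 1)}.ncard := by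
  classical
  have hmono : ∀ i, 1 ≤ i → ∀ j, i ≤ j → f i ≤ f j := by
    intro i hi j hij
    induction j, hij using Nat.le_induction with
    | base => exact le_rfl
    | succ j hj ih => exact ih.trans (hf j (hi.trans hj))
  have hfin : ∀ n, {a | ∃ r, 1 ≤ r ∧ r ≤ n ∧ a = f r}.Finite := by
    intro n
    refine ((Finset.Icc 1 n).image f).finite_toSet.subset ?_
    rintro a ⟨r, h1, h2, rfl⟩
    exact Finset.mem_coe.2 (Finset.mem_image.2 ⟨r, Finset.mem_Icc.2 ⟨h1, h2⟩, rfl⟩)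
  have hfin' : ∀ n, {r | 1 ≤ r ∧ r < n ∧ f r ≠ f (r + 1)}.Finite := by
    intro n
    refine (Finset.range n).finite_toSet.subset ?_
    rintro r ⟨-, h2, -⟩
    exact Finset.mem_coe.2 (Finset.mem_range.2 h2)
  induction n, hn using Nat.le_induction with
  | base =>
    have h1 : {a | ∃ r, 1 ≤ r ∧ r ≤ 1 ∧ a = f r} = {f 1} := by
      ext a
      constructor
      · rintro ⟨r, h1, h2, rfl⟩
        have : r = 1 := le_antisymm h2 h1
        rw [this]; rfl
      · rintro rfl
        exact ⟨1, le_rfl, le_rfl, rfl⟩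
    have h2 : {r | 1 ≤ r ∧ r < 1 ∧ f r ≠ f (r + 1)} = ∅ := by
      ext r
      constructor
      · rintro ⟨h1, h2, -⟩
        omega
      · intro h; exact absurd h (Set.notMem_empty r)
    rw [h1, h2, Set.ncard_singleton, Set.ncard_empty]
  | succ n hn ih =>
    have h1 : {a | ∃ r, 1 ≤ r ∧ r ≤ n + 1 ∧ a = f r} =
        insert (f (n + 1)) {a | ∃ r, 1 ≤ r ∧ r ≤ n ∧ a = f r} := by
      ext a
      constructor
      · rintro ⟨r, h1, h2, rfl⟩
        by_cases h3 : r = n + 1
        · rw [h3]; exact Set.mem_insert _ _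
        · exact Set.mem_insert_of_mem _ ⟨r, h1, by omega, rfl⟩
      · rintro (rfl | ⟨r, h1, h2, rfl⟩)
        · exact ⟨n + 1, by omega, le_rfl, rfl⟩
        · exact ⟨r, h1, by omega, rfl⟩
    by_cases hstep : f n = f (n + 1)
    · have h2 : {r | 1 ≤ r ∧ r < n + 1 ∧ f r ≠ f (r + 1)} =
          {r | 1 ≤ r ∧ r < n ∧ f r ≠ f (r + 1)} := by
        ext r
        constructor
        · rintro ⟨h1, h2, h3⟩
          refine ⟨h1, ?_, h3⟩
          by_contra h4
          have h5 : r = n := by omega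
          exact h3 (h5 ▸ hstep)
        · rintro ⟨h1, h2, h3⟩
          exact ⟨h1, by omega, h3⟩
      have hmem : f (n + 1) ∈ {a | ∃ r, 1 ≤ r ∧ r ≤ n ∧ a = f r} :=
        ⟨n, hn, le_rfl, hstep.symm⟩
      rw [h1, h2, Set.insert_eq_of_mem hmem, ih]
    · have h2 : {r | 1 ≤ r ∧ r < n + 1 ∧ f r ≠ f (r + 1)} =
          insert n {r | 1 ≤ r ∧ r < n ∧ f r ≠ f (r + 1)} := by
        ext r
        constructor
        · rintro ⟨h1, h2, h3⟩
          by_cases h4 : r = n
          · rw [h4]; exact Set.mem_insert _ _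
          · exact Set.mem_insert_of_mem _ ⟨h1, by omega, h3⟩
        · rintro (rfl | ⟨h1, h2, h3⟩)
          · exact ⟨hn, by omega, hstep⟩
          · exact ⟨h1, by omega, h3⟩
      have h3 : f (n + 1) ∉ {a | ∃ r, 1 ≤ r ∧ r ≤ n ∧ a = f r} := by
        rintro ⟨r, h3, h4, h5⟩
        exact hstep (le_antisymm (hf n hn) (h5.le.trans (hmono r h3 n h4)))
      have h4 : n ∉ {r | 1 ≤ r ∧ r < n ∧ f r ≠ f (r + 1)} := by
        rintro ⟨-, h5, -⟩
        omega
      rw [h1, h2, Set.ncard_insert_of_notMem h3 (hfin n), Set.ncard_insert_of_notMem h4 (hfin' n),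
        ih, add_assoc]

/-- the number of distinct fields among `M_1, …, M_n` -/
theorem card_MU [IsAlgClosed k] [IsAlgClosed K] {n : ℕ} (hn : 1 ≤ n) (x : Fin n → K)
    (hx : IsTranscendenceBasis k x) :
    {F | ∃ r, 1 ≤ r ∧ r ≤ n ∧ F = MU k x r}.ncard =
      1 + {r | 1 ≤ r ∧ r < n ∧ MU k (xn k (r + 1)) r ≠ ⊤}.ncard := by
  rw [card_values (fun r => MU k x r) (fun r hr => MU_le_succ x hr) n hn]
  congr 2
  ext r
  constructor
  · rintro ⟨h1, h2, h3⟩
    exact ⟨h1, h2, fun h => h3 ((MU_eq_succ_iff x hx h1 h2 _ (basis_xn k (r + 1))).2 h)⟩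
  · rintro ⟨h1, h2, h3⟩
    exact ⟨h1, h2, fun h => h3 ((MU_eq_succ_iff x hx h1 h2 _ (basis_xn k (r + 1))).1 h)⟩

/-- heredity for an embedding -/
theorem comap_M [IsAlgClosed k] [IsAlgClosed K] {n m : ℕ} (x : Fin n → K)
    (hx : IsTranscendenceBasis k x) (hmn : m ≤ n) {L : Type*} [Field L] [IsAlgClosed L]
    [Algebra k L] (z : Fin m → L) (hz : IsTranscendenceBasis k z) (φ : L →ₐ[k] K)
    (hφ : ∀ i, φ (z i) = x (Fin.castLE hmn i)) (r s : ℕ) :
    (ALG.M k x r s).comap φ = ALG.M k z r s := by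
  have hφ' : φ ∘ z = x ∘ Fin.castLE hmn := funext hφ
  have hbz : ALG.bracket (k := k) z = ⊤ := by
    rw [ALG.bracket_eq]; exact ALG.ac_top_of_basis hz
  ext w
  constructor
  · intro hw
    have h1 : φ w ∈ ALG.bracket (k := k) (x ∘ Fin.castLE hmn) := by
      rw [← hφ', ← map_bracket, hbz]
      exact ⟨w, mem_top, rfl⟩
    have h3 : φ w ∈ ALG.M k (x ∘ Fin.castLE hmn) r s := by
      rw [← heredity x hx hmn]
      exact ⟨hw, h1⟩
    rw [← hφ', ← map_M] at h3
    obtain ⟨w', hw', hww⟩ := h3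
    have h4 : w' = w := φ.toRingHom.injective hww
    rw [← h4]
    exact hw'
  · intro hw
    have h1 : φ w ∈ (ALG.M k z r s).map φ := ⟨w, hw, rfl⟩
    rw [map_M, hφ'] at h1
    exact M_mono_family (X := x) (x := x ∘ Fin.castLE hmn)
      (fun j => subset_adjoin k _ ⟨Fin.castLE hmn j, rfl⟩) r s h1

/-- the number of distinct fields among the `M_r^s` does not decrease with `n` -/
theorem encard_M [IsAlgClosed k] [IsAlgClosed K] {n m : ℕ} (x : Fin n → K)
    (hx : IsTranscendenceBasis k x) (hmn : m ≤ n) :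
    {F | ∃ r s, 1 ≤ r ∧ r ≤ m ∧ 1 ≤ s ∧ F = ALG.M k (xn k m) r s}.encard ≤
      {F | ∃ r s, 1 ≤ r ∧ r ≤ n ∧ 1 ≤ s ∧ F = ALG.M k x r s}.encard := by
  obtain ⟨φ, hφ⟩ := exists_hom (basis_xn k m)
    (hx.1.comp (Fin.castLE hmn) (Fin.castLE_injective hmn))
  have h1 : {F | ∃ r s, 1 ≤ r ∧ r ≤ m ∧ 1 ≤ s ∧ F = ALG.M k (xn k m) r s} ⊆
      (fun F : IntermediateField k K => F.comap φ) ''
        {F | ∃ r s, 1 ≤ r ∧ r ≤ n ∧ 1 ≤ s ∧ F = ALG.M k x r s} := by
    rintro _ ⟨r, s, h1, h2, h3, rfl⟩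
    exact ⟨ALG.M k x r s, ⟨r, s, h1, h2.trans hmn, h3, rfl⟩,
      comap_M x hx hmn _ (basis_xn k m) φ hφ r s⟩
  exact (Set.encard_le_encard h1).trans (Set.encard_image_le _ _)

end Pool.Agent.H2.HER
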