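import Pool.Agent.H2.HER.Step

/-!
# HER Threshold

The number of distinct fields among `M_1, …, M_n` is the minimum of `n` and a constant.
-/

set_option autoImplicit false
set_option linter.style.haveILetI false

namespace Pool.Agent.H2.HER

open Polynomial IntermediateField

universe u v

theorem exists_threshold {k : Type*} [Field k] [IsAlgClosed k] {B : ℕ → k}
    (hB : AlgebraicIndependent (⊥ : Subfield k) B) :
    ∃ c : ℕ∞, 1 ≤ c ∧ ∀ r : ℕ, 1 ≤ r → (MU k (xn k (r + 1)) r = ⊤ ↔ c ≤ r) := by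
  classical
  by_cases h : ∃ r, 1 ≤ r ∧ MU k (xn k (r + 1)) r = ⊤
  · refine ⟨(Nat.find h : ℕ), ?_, fun r hr => ⟨fun h1 => ?_, fun h1 => ?_⟩⟩
    · exact_mod_cast (Nat.find_spec h).1
    · exact_mod_cast Nat.find_min' h ⟨hr, h1⟩
    · exact up_closed hB (Nat.find_spec h).1 (by exact_mod_cast h1) (Nat.find_spec h).2
  · refine ⟨⊤, le_top, fun r hr => ⟨fun h1 => absurd ⟨r, hr, h1⟩ h, fun h1 => ?_⟩⟩
    exact absurd (top_le_iff.1 h1) (ENat.natCast_ne_top r)

/-- factoring a ring homomorphism -/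
theorem exists_factor {A B C : Type*} [Field A] [Field B] [Field C] (j : B →+* C) (f : A →+* C)
    (h : ∀ a, ∃ b, j b = f a) : ∃ g : A →+* B, ∀ a, j (g a) = f a := by
  choose g hg using h
  exact ⟨{ toFun := g
           map_one' := j.injective (by rw [hg, map_one, map_one])
           map_mul' := fun a b => j.injective (by rw [map_mul, hg, hg, hg, map_mul])
           map_zero' := j.injective (by rw [hg, map_zero, map_zero])
           map_add' := fun a b => j.injective (by rw [map_add, hg, hg, hg, map_add]) }, hg⟩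

/-- independence over a smaller field -/
theorem indep_of_factor {A B C ι : Type*} [Field A] [Field B] [Field C] [Algebra A C] [Algebra B C]
    {b : ι → C} (hb : AlgebraicIndependent B b)
    (h : ∀ a : A, ∃ b : B, algebraMap B C b = algebraMap A C a) : AlgebraicIndependent A b := by
  obtain ⟨j, hj⟩ := exists_factor (algebraMap B C) (algebraMap A C) h
  letI : Algebra A B := j.toAlgebra
  haveI : @IsScalarTower A B C Algebra.toSMul Algebra.toSMul Algebra.toSMul :=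
    IsScalarTower.of_algebraMap_eq (fun a => (hj a).symm)
  exact hb.restrictScalars (algebraMap A B).injective

/-- fields of constants of infinite transcendence degree exist -/
theorem exists_big (k : Type u) [Field k] (p : ℕ) [CharP k p] :
    ∃ (k₃ : Type u) (_ : Field k₃) (_ : IsAlgClosed k₃) (_ : CharP k₃ p) (B : ℕ → k₃),
      AlgebraicIndependent (⊥ : Subfield k₃) B := by
  haveI : Algebra.IsAlgebraic (MvPolynomial ℕ k) (FractionRing (MvPolynomial ℕ k)) :=
    IsLocalization.isAlgebraic _ (nonZeroDivisors _)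
  have h1 : IsTranscendenceBasis k (algebraMap (MvPolynomial ℕ k)
      (FractionRing (MvPolynomial ℕ k)) ∘ MvPolynomial.X) :=
    (IsTranscendenceBasis.mvPolynomial ℕ k).algebraMap_comp
  have h2 := h1.algebraMap_comp (A := AlgebraicClosure (FractionRing (MvPolynomial ℕ k)))
  refine ⟨AlgebraicClosure (FractionRing (MvPolynomial ℕ k)), inferInstance, inferInstance,
    charP_of_injective_algebraMap (algebraMap k
      (AlgebraicClosure (FractionRing (MvPolynomial ℕ k)))).injective p, _,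
    indep_of_factor h2.1 (fun a => ?_)⟩
  have h3 : (a : AlgebraicClosure (FractionRing (MvPolynomial ℕ k))) ∈
      (algebraMap k (AlgebraicClosure (FractionRing (MvPolynomial ℕ k)))).fieldRange :=
    (bot_le : (⊥ : Subfield _) ≤ _) a.2
  exact h3

/-- the prime field -/
theorem exists_prime_field (k₀ : Type u) [Field k₀] (p : ℕ) [CharP k₀ p] :
    ∃ (F : Type) (_ : Field F) (_ : Algebra F k₀), ∀ (k : Type u) [Field k] [CharP k p],
      ∃ (_ : Algebra F k), ∀ a : F, algebraMap F k a ∈ (⊥ : Subfield k) := by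
  rcases CharP.char_is_prime_or_zero k₀ p with hp | rfl
  · haveI := Fact.mk hp
    refine ⟨ZMod p, inferInstance, ZMod.algebra k₀ p, fun k _ _ => ⟨ZMod.algebra k p, fun a => ?_⟩⟩
    letI := ZMod.algebra k p
    rw [← ZMod.natCast_zmod_val a, map_natCast]
    exact natCast_mem _ _
  · haveI : CharZero k₀ := CharP.charP_to_charZero k₀
    refine ⟨ℚ, inferInstance, inferInstance, fun k _ _ => ?_⟩
    haveI : CharZero k := CharP.charP_to_charZero k
    refine ⟨inferInstance, fun a => ?_⟩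
    rw [eq_ratCast]
    exact SubfieldClass.ratCast_mem _ a

theorem exists_const (p : ℕ) : ∃ c : ℕ∞, 1 ≤ c ∧ ∃ d : ℕ → ℕ,
    ∀ (k : Type u) [Field k] [IsAlgClosed k] [CharP k p] (r : ℕ), 1 ≤ r →
      (c ≤ r → MU k (xn k (r + 1)) r = ⊤) ∧
      ∀ n, r < n → (∃ b : Fin (d n) → k, AlgebraicIndependent (⊥ : Subfield k) b) →
        MU k (xn k (r + 1)) r = ⊤ → c ≤ r := by
  by_cases h : ∃ (k : Type u) (_ : Field k) (_ : IsAlgClosed k) (_ : CharP k p) (B : ℕ → k),
      AlgebraicIndependent (⊥ : Subfield k) B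
  · obtain ⟨k₀, _, _, _, B₀, hB₀⟩ := h
    obtain ⟨c, hc1, hc⟩ := exists_threshold hB₀
    obtain ⟨F, _, _, hF⟩ := exists_prime_field k₀ p
    choose N e he heq using exists_finite_constants F (k := k₀)
    refine ⟨c, hc1, N, fun k _ _ _ r hr => ⟨fun h1 => ?_, fun n hn ⟨b, hb⟩ h1 => ?_⟩⟩
    · exact MU_top_of_inf p hB₀ hr ((hc r hr).2 h1)
    · obtain ⟨_, hbot⟩ := hF k
      have hb' : AlgebraicIndependent F b := indep_of_factor hb (fun a => ⟨⟨_, hbot a⟩, rfl⟩)
      haveI : IsAlgClosed (ALG.bracket (k := F) (e n)) := isAlgClosed_bracket _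
      obtain ⟨φ, -⟩ := exists_hom (basis_bracket (e n) (he n)) hb'
      letI : Algebra (ALG.bracket (k := F) (e n)) k := φ.toRingHom.toAlgebra
      exact (hc r hr).1 ((heq n r hr hn).1
        (MU_top_of_le (k := ALG.bracket (k := F) (e n)) (k' := k) hr h1))
  · refine ⟨⊤, le_top, fun _ => 0, fun k _ _ _ r hr => ?_⟩
    exact absurd (exists_big k p) h

theorem card_lt (n : ℕ) (hn : 1 ≤ n) (c : ℕ∞) (hc : 1 ≤ c) :
    ((1 + {r : ℕ | 1 ≤ r ∧ r < n ∧ (r : ℕ∞) < c}.ncard : ℕ) : ℕ∞) = min (n : ℕ∞) c := by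
  cases c with
  | top =>
    have h1 : {r : ℕ | 1 ≤ r ∧ r < n ∧ (r : ℕ∞) < ⊤} = (Finset.Ico 1 n : Finset ℕ) := by
      ext r
      simp only [Set.mem_ofPred_eq, Finset.coe_Ico, Set.mem_Ico, ENat.natCast_lt_top, and_true]
    rw [h1, Set.ncard_coe_finset, Nat.card_Ico, min_eq_left le_top]
    congr 1
    omega
  | coe m =>
    have hm : 1 ≤ m := by exact_mod_cast hc
    have h1 : {r : ℕ | 1 ≤ r ∧ r < n ∧ (r : ℕ∞) < (m : ℕ∞)} =
        (Finset.Ico 1 (min n m) : Finset ℕ) := by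
      ext r
      simp only [Set.mem_ofPred_eq, Finset.coe_Ico, Set.mem_Ico, Nat.cast_lt, lt_min_iff]
    rw [h1, Set.ncard_coe_finset, Nat.card_Ico]
    have h2 : 1 + (min n m - 1) = min n m := by
      have := le_min hn hm
      omega
    rw [h2]
    exact_mod_cast rfl

theorem finite_steps (n : ℕ) (P : ℕ → Prop) : {r : ℕ | 1 ≤ r ∧ r < n ∧ P r}.Finite := by
  refine (Finset.range n).finite_toSet.subset ?_
  rintro r ⟨-, h2, -⟩
  exact Finset.mem_coe.2 (Finset.mem_range.2 h2)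

theorem encard_eq {k K : Type*} [Field k] [IsAlgClosed k] [Field K] [IsAlgClosed K] [Algebra k K]
    {n : ℕ} (hn : 1 ≤ n) (x : Fin n → K) (hx : IsTranscendenceBasis k x) :
    {F | ∃ r, 1 ≤ r ∧ r ≤ n ∧ F = MU k x r}.encard =
      ((1 + {r | 1 ≤ r ∧ r < n ∧ MU k (xn k (r + 1)) r ≠ ⊤}.ncard : ℕ) : ℕ∞) := by
  have hfin : {F | ∃ r, 1 ≤ r ∧ r ≤ n ∧ F = MU k x r}.Finite := by
    classical
    refine ((Finset.Icc 1 n).image (fun r => MU k x r)).finite_toSet.subset ?_
    rintro a ⟨r, h1, h2, rfl⟩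
    exact Finset.mem_coe.2 (Finset.mem_image.2 ⟨r, Finset.mem_Icc.2 ⟨h1, h2⟩, rfl⟩)
  rw [← hfin.cast_ncard_eq, card_MU hn x hx]

/-- the number of distinct fields among `M_1, …, M_n` -/
theorem threshold (p : ℕ) : ∃ c : ℕ∞, 1 ≤ c ∧ ∃ d : ℕ → ℕ,
    ∀ (k : Type u) [Field k] [IsAlgClosed k] [CharP k p] (K : Type v) [Field K] [IsAlgClosed K]
      [Algebra k K] (n : ℕ) (x : Fin n → K), 1 ≤ n → IsTranscendenceBasis k x →
      (∀ r r', 1 ≤ r → r < r' → r' ≤ n → c ≤ r → MU k x r = MU k x r') ∧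
      {F | ∃ r, 1 ≤ r ∧ r ≤ n ∧ F = MU k x r}.encard ≤ min (n : ℕ∞) c ∧
      ((∃ b : Fin (d n) → k, AlgebraicIndependent (⊥ : Subfield k) b) →
        (∀ r r', 1 ≤ r → r < r' → r' ≤ n → (MU k x r = MU k x r' ↔ c ≤ r)) ∧
        {F | ∃ r, 1 ≤ r ∧ r ≤ n ∧ F = MU k x r}.encard = min (n : ℕ∞) c) := by
  obtain ⟨c, hc1, d, hc⟩ := exists_const.{u} p
  refine ⟨c, hc1, d, fun k _ _ _ K _ _ _ n x hn hx => ?_⟩
  have hA : ∀ r r', 1 ≤ r → r < r' → r' ≤ n → c ≤ r → MU k x r = MU k x r' := by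
    intro r r' hr hrr' hn' hcr
    rw [MU_eq_iff_steps x hr hrr'.le]
    intro j hj hj'
    refine (MU_eq_succ_iff x hx (by omega) (by omega) _ (basis_xn k (j + 1))).2 ?_
    exact (hc k j (by omega)).1 (hcr.trans (by exact_mod_cast hj))
  refine ⟨hA, ?_, fun hB => ⟨?_, ?_⟩⟩
  · rw [encard_eq hn x hx, ← card_lt n hn c hc1]
    have h1 : {r | 1 ≤ r ∧ r < n ∧ MU k (xn k (r + 1)) r ≠ ⊤} ⊆
        {r : ℕ | 1 ≤ r ∧ r < n ∧ (r : ℕ∞) < c} := by
      rintro r ⟨h1, h2, h3⟩
      refine ⟨h1, h2, ?_⟩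
      by_contra h4
      exact h3 ((hc k r h1).1 (not_lt.1 h4))
    have h2 := Set.ncard_le_ncard h1 (finite_steps n _)
    exact_mod_cast Nat.add_le_add_left h2 1
  · intro r r' hr hrr' hn'
    refine ⟨fun h => ?_, hA r r' hr hrr' hn'⟩
    have h1 := (MU_eq_iff_steps x hr hrr'.le).1 h r le_rfl hrr'
    exact (hc k r hr).2 n (by omega) hB
      ((MU_eq_succ_iff x hx hr (by omega) _ (basis_xn k (r + 1))).1 h1)
  · rw [encard_eq hn x hx, ← card_lt n hn c hc1]
    have h1 : {r | 1 ≤ r ∧ r < n ∧ MU k (xn k (r + 1)) r ≠ ⊤} =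
        {r : ℕ | 1 ≤ r ∧ r < n ∧ (r : ℕ∞) < c} := by
      ext r
      constructor
      · rintro ⟨h1, h2, h3⟩
        refine ⟨h1, h2, ?_⟩
        by_contra h4
        exact h3 ((hc k r h1).1 (not_lt.1 h4))
      · rintro ⟨h1, h2, h3⟩
        exact ⟨h1, h2, fun h => absurd ((hc k r h1).2 n h2 hB h) (not_le.2 h3)⟩
    rw [h1]

end Pool.Agent.H2.HER
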