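import Pool.Agent.H2.HER.QTwo

/-!
# HER VR1

The Gauss extension of a valuation ring of a field `E` to a field `K` containing `E(x_1, …, x_n)`.
-/

set_option autoImplicit false
set_option linter.style.haveILetI false

namespace Pool.Agent.H2.HER

open Polynomial IntermediateField

universe u v

section gauss

variable {E K : Type*} [Field E] [Field K] [Algebra E K] {n : ℕ}

/-- polynomials with integral coefficients as elements of `K` -/
noncomputable def evA (A : ValuationSubring E) (x : Fin n → K) : MvPolynomial (Fin n) A →+* K :=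
  (MvPolynomial.aeval (R := E) x : MvPolynomial (Fin n) E →+* K).comp
    (MvPolynomial.map A.subtype)

/-- the Gauss extension -/
theorem exists_gauss_ring (A : ValuationSubring E) {x : Fin n → K} (hx : AlgebraicIndependent E x) :
    ∃ O : ValuationSubring K,
      ∀ P : MvPolynomial (Fin n) A, evA A x P ∈ O ∧
        (O.valuation (evA A x P) < 1 ↔ MvPolynomial.map (IsLocalRing.residue A) P = 0) := by
  classical
  have hinj : Function.Injective (evA A x) := by
    unfold evA
    rw [RingHom.coe_comp]
    exact Function.Injective.comp hx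
      (MvPolynomial.map_injective _ Subtype.val_injective)
  obtain ⟨I, hI⟩ : ∃ I : Ideal (MvPolynomial (Fin n) A),
    I = RingHom.ker (MvPolynomial.map (σ := Fin n) (IsLocalRing.residue A)) := ⟨_, rfl⟩
  haveI hIp : I.IsPrime := by
    rw [hI]; exact RingHom.ker_isPrime _
  have hunit : ∀ y : I.primeCompl, IsUnit (evA A x y) := by
    intro y
    rw [isUnit_iff_ne_zero]
    intro h0
    have h1 : (y : MvPolynomial (Fin n) A) = 0 := hinj (by rw [h0, map_zero])
    exact y.2 (by rw [h1]; exact I.zero_mem)
  obtain ⟨f, hf⟩ : ∃ f : Localization.AtPrime I →+* K,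
      ∀ P, f (algebraMap _ (Localization.AtPrime I) P) = evA A x P :=
    ⟨IsLocalization.lift (M := I.primeCompl) (S := Localization.AtPrime I) (g := evA A x) hunit,
      fun P => IsLocalization.lift_eq hunit P⟩
  obtain ⟨O, h, hloc⟩ := IsLocalRing.exists_factor_valuationRing (R := Localization.AtPrime I) f
  refine ⟨O, fun P => ?_⟩
  have h1 : evA A x P = f (algebraMap _ (Localization.AtPrime I) P) := (hf P).symm
  have hmem : evA A x P ∈ O := by
    rw [h1]; exact h _
  refine ⟨hmem, ?_⟩
  have h2 : IsUnit (⟨evA A x P, hmem⟩ : O) ↔ P ∉ I := by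
    have h3 : (⟨evA A x P, hmem⟩ : O) = (RingHom.codRestrict f O.toSubring h)
          (algebraMap _ (Localization.AtPrime I) P) := Subtype.ext h1
    constructor
    · intro h4 h5
      rw [h3] at h4
      have h6 := hloc.map_nonunit _ h4
      exact (IsLocalization.AtPrime.isUnit_to_map_iff (Localization.AtPrime I) I P).1 h6 h5
    · intro h4
      rw [h3]
      exact ((IsLocalization.AtPrime.isUnit_to_map_iff (Localization.AtPrime I) I P).2 h4).map _
  have h7 : O.valuation (evA A x P) < 1 ↔ ¬ IsUnit (⟨evA A x P, hmem⟩ : O) := by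
    have h9 := O.valuation_eq_one_iff ⟨evA A x P, hmem⟩
    have h8 : O.valuation (evA A x P) ≤ 1 := (O.valuation_le_one_iff _).2 hmem
    rw [h9]
    exact ⟨fun h => h.ne, fun h => lt_of_le_of_ne h8 h⟩
  rw [h7, h2, not_not, hI, RingHom.mem_ker]

end gauss

end Pool.Agent.H2.HER
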