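import Pool.Agent.H2.HER.VR1
import Pool.Agent.H45.CH.Defs
import Pool.Agent.H45.CH.Loc
import Pool.Agent.H45.CH.VB3

/-!
# HER VR2

The Gauss extension has all properties of `Red`.
-/

set_option autoImplicit false
set_option linter.style.haveILetI false

namespace Pool.Agent.H2.HER

open Polynomial IntermediateField Pool.Agent.H45.CH

universe u v

section gauss

variable {E K : Type*} [Field E] [Field K] [Algebra E K] {n : ℕ} (A : ValuationSubring E)
  {x : Fin n → K} (O : ValuationSubring K)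

theorem evA_C (a : A) : evA A x (MvPolynomial.C a) = algebraMap E K a := by
  simp [evA]

theorem evA_X (i : Fin n) : evA A x (MvPolynomial.X i) = x i := by
  simp [evA]

/-- the hypothesis on `O` -/
def GaussP (A : ValuationSubring E) (x : Fin n → K) (O : ValuationSubring K) : Prop :=
  ∀ P : MvPolynomial (Fin n) A, evA A x P ∈ O ∧
    (O.valuation (evA A x P) < 1 ↔ MvPolynomial.map (IsLocalRing.residue A) P = 0)

variable {A O} (hO : GaussP A x O)
include hO

theorem GaussP.const (a : A) : algebraMap E K a ∈ O ∧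
    (O.valuation (algebraMap E K a) < 1 ↔ IsLocalRing.residue A a = 0) := by
  have h := hO (MvPolynomial.C a)
  rw [evA_C, MvPolynomial.map_C, MvPolynomial.C_eq_zero] at h
  exact h

theorem GaussP.mem_of_mem {c : E} (hc : algebraMap E K c ∈ O) : c ∈ A := by
  rcases A.mem_or_inv_mem c with h | h
  · exact h
  · by_contra hcA
    have hc0 : c ≠ 0 := by
      rintro rfl
      exact hcA A.zero_mem
    have h1 := (hO.const ⟨c⁻¹, h⟩).2
    have h2 : IsLocalRing.residue A ⟨c⁻¹, h⟩ = 0 := by
      rw [IsLocalRing.residue_eq_zero_iff, IsLocalRing.mem_maximalIdeal, mem_nonunits_iff]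
      intro hu
      obtain ⟨u, hu⟩ := hu
      have h3 : ((u⁻¹ : Aˣ) : A) * (⟨c⁻¹, h⟩ : A) = 1 := by rw [← hu]; exact u.inv_mul
      have h4 : (((u⁻¹ : Aˣ) : A) : E) * c⁻¹ = 1 := congrArg Subtype.val h3
      have h5 : (((u⁻¹ : Aˣ) : A) : E) = c := by
        field_simp at h4
        exact h4
      exact hcA (h5 ▸ ((u⁻¹ : Aˣ) : A).2)
    have h3 := h1.2 h2
    have h4 := (O.valuation_le_one_iff _).2 hc
    have h5 : algebraMap E K c * algebraMap E K c⁻¹ = 1 := by
      rw [← map_mul, mul_inv_cancel₀ hc0, map_one]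
    have h6 : O.valuation (algebraMap E K c) * O.valuation (algebraMap E K c⁻¹) = 1 := by
      rw [← map_mul, h5, map_one]
    have h7 : O.valuation (algebraMap E K c) * O.valuation (algebraMap E K c⁻¹) < 1 := by
      calc O.valuation (algebraMap E K c) * O.valuation (algebraMap E K c⁻¹)
          ≤ 1 * O.valuation (algebraMap E K c⁻¹) := by gcongr
        _ = O.valuation (algebraMap E K c⁻¹) := one_mul _
        _ < 1 := h3
    rw [h6] at h7
    exact lt_irrefl _ h7

theorem GaussP.val_one {P : MvPolynomial (Fin n) A}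
    (hP : MvPolynomial.map (IsLocalRing.residue A) P ≠ 0) : O.valuation (evA A x P) = 1 := by
  have h1 := hO P
  have h2 := (O.valuation_le_one_iff _).2 h1.1
  exact le_antisymm h2 (not_lt.1 (fun h => hP (h1.2.1 h)))

omit hO in
/-- Gauss -/
theorem exists_content (A : ValuationSubring E) (x : Fin n → K) (f : MvPolynomial (Fin n) E)
    (hf : f ≠ 0) : ∃ c : E, c ≠ 0 ∧ ∃ P : MvPolynomial (Fin n) A,
      MvPolynomial.map (IsLocalRing.residue A) P ≠ 0 ∧
      MvPolynomial.aeval x f = algebraMap E K c * evA A x P := by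
  classical
  obtain ⟨m, hm, hmax⟩ := Finset.exists_max_image f.support (fun j => A.valuation (f.coeff j))
    (MvPolynomial.support_nonempty.2 hf)
  set c := f.coeff m with hc
  have hc0 : c ≠ 0 := MvPolynomial.mem_support_iff.1 hm
  have hle : ∀ j, A.valuation (f.coeff j) ≤ A.valuation c := by
    intro j
    by_cases hj : j ∈ f.support
    · exact hmax j hj
    · rw [MvPolynomial.notMem_support_iff.1 hj, map_zero]
      exact zero_le
  obtain ⟨P, hP⟩ : MvPolynomial.C c⁻¹ * f ∈ Set.range (MvPolynomial.map A.subtype) := by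
    rw [MvPolynomial.mem_range_map_iff_coeffs_subset]
    intro a ha
    obtain ⟨j, hj, rfl⟩ := MvPolynomial.mem_coeffs_iff.1 ha
    refine ⟨⟨(MvPolynomial.C c⁻¹ * f).coeff j, ?_⟩, rfl⟩
    rw [← A.valuation_le_one_iff, MvPolynomial.coeff_C_mul, map_mul, map_inv₀]
    have hv : A.valuation c ≠ 0 := (Valuation.ne_zero_iff _).2 hc0
    calc (A.valuation c)⁻¹ * A.valuation (f.coeff j)
        ≤ (A.valuation c)⁻¹ * A.valuation c := by gcongr; exact hle j
      _ = 1 := inv_mul_cancel₀ hv
  refine ⟨c, hc0, P, ?_, ?_⟩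
  · intro h0
    have h1 : (MvPolynomial.map A.subtype P).coeff m = 1 := by
      rw [hP, MvPolynomial.coeff_C_mul, ← hc, inv_mul_cancel₀ hc0]
    rw [MvPolynomial.coeff_map] at h1
    have h2 : P.coeff m = 1 := Subtype.ext h1
    have h3 := congrArg (MvPolynomial.coeff m) h0
    rw [MvPolynomial.coeff_map, h2, map_one, MvPolynomial.coeff_zero] at h3
    exact one_ne_zero h3
  · have h1 : evA A x P = MvPolynomial.aeval x (MvPolynomial.map A.subtype P) := rfl
    rw [h1, hP, map_mul, MvPolynomial.aeval_C, ← mul_assoc, ← map_mul, mul_inv_cancel₀ hc0,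
      map_one, one_mul]

/-- the elements of `E(x)` -/
theorem GaussP.frac {z : K} (hz : z ∈ adjoin E (Set.range x)) (hz0 : z ≠ 0) :
    ∃ c : E, c ≠ 0 ∧ ∃ P Q : MvPolynomial (Fin n) A,
      MvPolynomial.map (IsLocalRing.residue A) P ≠ 0 ∧
      MvPolynomial.map (IsLocalRing.residue A) Q ≠ 0 ∧
      evA A x Q ≠ 0 ∧ z * evA A x Q = algebraMap E K c * evA A x P := by
  obtain ⟨r, s, rfl⟩ := (IntermediateField.mem_adjoin_range_iff E x z).1 hz
  have hr : r ≠ 0 := by
    rintro rfl
    exact hz0 (by rw [map_zero, zero_div])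
  have hs : s ≠ 0 := by
    rintro rfl
    exact hz0 (by rw [map_zero, div_zero])
  obtain ⟨c, hc, P, hP, hPe⟩ := exists_content A x r hr
  obtain ⟨d, hd, Q, hQ, hQe⟩ := exists_content A x s hs
  have hQ0 : evA A x Q ≠ 0 := by
    intro h0
    have := hO.val_one hQ
    rw [h0, map_zero] at this
    exact zero_ne_one this
  refine ⟨c / d, div_ne_zero hc hd, P, Q, hP, hQ, hQ0, ?_⟩
  have hd' : algebraMap E K d ≠ 0 := (_root_.map_ne_zero _).2 hd
  rw [hPe, hQe, map_div₀]
  field_simp

theorem GaussP.scale_base {z : K} (hz : z ∈ adjoin E (Set.range x)) (hz0 : z ≠ 0) :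
    ∃ c : E, c ≠ 0 ∧ O.valuation (z / algebraMap E K c) = 1 := by
  obtain ⟨c, hc, P, Q, hP, hQ, hQ0, he⟩ := hO.frac hz hz0
  refine ⟨c, hc, ?_⟩
  have hc' : algebraMap E K c ≠ 0 := (_root_.map_ne_zero _).2 hc
  have h1 : z / algebraMap E K c = evA A x P / evA A x Q := by
    rw [div_eq_div_iff hc' hQ0, he, mul_comm]
  rw [h1, map_div₀, hO.val_one hP, hO.val_one hQ, div_one]

theorem GaussP.scale [IsAlgClosed E] (hx : IsTranscendenceBasis E x) {z : K} (hz0 : z ≠ 0) :
    ∃ c : E, c ≠ 0 ∧ O.valuation (z / algebraMap E K c) = 1 := by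
  have halg : Algebra.IsAlgebraic (adjoin E (Set.range x)) K := hx.isAlgebraic_field
  obtain ⟨N, hN, f, hf, hf0, w, hw, he⟩ :=
    exists_pow_scale O (adjoin E (Set.range x)).toSubfield z hz0 (halg.isAlgebraic z)
  obtain ⟨c, hc, hv⟩ := hO.scale_base hf hf0
  obtain ⟨d, hd⟩ := IsAlgClosed.exists_pow_nat_eq c (n := N) (by omega)
  have hd0 : d ≠ 0 := by
    rintro rfl
    exact hc (by rw [← hd, zero_pow (by omega)])
  refine ⟨d, hd0, ?_⟩
  have hd' : algebraMap E K d ≠ 0 := (_root_.map_ne_zero _).2 hd0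
  have hw1 : O.valuation (w : K) = 1 := (O.valuation_eq_one_iff w).1 hw
  have h1 : (z / algebraMap E K d) ^ N = w * (f / algebraMap E K c) := by
    rw [div_pow, ← map_pow, hd, he]
    ring
  have h2 : O.valuation (z / algebraMap E K d) ^ N = 1 := by
    rw [← map_pow, h1, map_mul, hw1, hv, one_mul]
  exact (pow_eq_one_iff_of_nonneg zero_le (by omega)).1 h2

end gauss

end Pool.Agent.H2.HER
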